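import Mathlib

set_option autoImplicit false

/-! Local densities of complete intersections in `ℙⁿ`: interpolation and Bonferroni. -/

namespace Pool.Agent.Helper3K9.CI

open MvPolynomial

theorem exists_linear {F : Type} [Field F] {n : ℕ} (x y : Fin (n + 1) → F) (hy : y ≠ 0)
    (hxy : ∀ t : F, x ≠ t • y) :
    ∃ ℓ : MvPolynomial (Fin (n + 1)) F, ℓ.IsHomogeneous 1 ∧ eval y ℓ = 0 ∧ eval x ℓ ≠ 0 := by
  obtain ⟨j, hj⟩ := Function.ne_iff.1 hy
  have hj' : y j ≠ 0 := hj
  by_cases h : ∀ i, x i * y j - x j * y i = 0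
  · exfalso
    apply hxy (x j / y j)
    funext i
    have := h i
    simp only [Pi.smul_apply, smul_eq_mul]
    field_simp
    linear_combination this
  · push Not at h
    obtain ⟨i, hi⟩ := h
    refine ⟨C (y j) * X i - C (y i) * X j, ?_, ?_, ?_⟩
    · exact (isHomogeneous_C_mul_X _ _).sub (isHomogeneous_C_mul_X _ _)
    · simp
      ring
    · simp
      intro h
      apply hi
      linear_combination h

theorem exists_form {F : Type} [Field F] {n : ℕ} (e : ℕ) (he : 2 ≤ e)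
    (T : Finset (Fin (n + 1) → F)) (hT : T.card ≤ 3) (h0 : ∀ y ∈ T, y ≠ 0)
    (hT2 : ∀ y ∈ T, ∀ z ∈ T, y ≠ z → ∀ t : F, y ≠ t • z) (x : Fin (n + 1) → F) (hx : x ∈ T) :
    ∃ f : MvPolynomial (Fin (n + 1)) F, f.IsHomogeneous e ∧ eval x f = 1 ∧
      ∀ y ∈ T, y ≠ x → eval y f = 0 := by
  classical
  have h1 : ∀ y, ∃ ℓ : MvPolynomial (Fin (n + 1)) F, y ∈ T.erase x →
      ℓ.IsHomogeneous 1 ∧ eval y ℓ = 0 ∧ eval x ℓ ≠ 0 := by
    intro y
    by_cases hy : y ∈ T.erase x
    · obtain ⟨hy1, hy2⟩ := Finset.mem_erase.1 hy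
      obtain ⟨ℓ, hℓ⟩ := exists_linear x y (h0 y hy2) (hT2 x hx y hy2 (Ne.symm hy1))
      exact ⟨ℓ, fun _ => hℓ⟩
    · exact ⟨0, fun h => absurd h hy⟩
  choose ℓ hℓ using h1
  obtain ⟨l, hl⟩ := Function.ne_iff.1 (h0 x hx)
  have hl' : x l ≠ 0 := hl
  have hcard : (T.erase x).card + (e - (T.erase x).card) = e := by
    rw [Finset.card_erase_of_mem hx]
    omega
  obtain ⟨f₀, hf₀⟩ : ∃ f₀ : MvPolynomial (Fin (n + 1)) F,
      f₀ = (∏ y ∈ T.erase x, ℓ y) * X l ^ (e - (T.erase x).card) := ⟨_, rfl⟩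
  have hf1 : f₀.IsHomogeneous e := by
    have h2 : (∏ y ∈ T.erase x, ℓ y).IsHomogeneous (T.erase x).card := by
      have := IsHomogeneous.prod (T.erase x) ℓ (fun _ => 1) (fun y hy => (hℓ y hy).1)
      simpa using this
    have h3 : (X l ^ (e - (T.erase x).card) : MvPolynomial (Fin (n + 1)) F).IsHomogeneous
        (e - (T.erase x).card) := isHomogeneous_X_pow l _
    have h4 := h2.mul h3
    rw [hcard] at h4
    rw [hf₀]
    exact h4
  have hf2 : eval x f₀ ≠ 0 := by
    rw [hf₀, map_mul, map_prod, map_pow, eval_X]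
    refine mul_ne_zero (Finset.prod_ne_zero_iff.2 fun y hy => (hℓ y hy).2.2) (pow_ne_zero _ hl')
  have hf3 : ∀ y ∈ T, y ≠ x → eval y f₀ = 0 := by
    intro y hy hyx
    have hy' : y ∈ T.erase x := Finset.mem_erase.2 ⟨hyx, hy⟩
    rw [hf₀, map_mul, map_prod, Finset.prod_eq_zero hy' (hℓ y hy').2.1, zero_mul]
  refine ⟨C (eval x f₀)⁻¹ * f₀, ?_, ?_, ?_⟩
  · have := (isHomogeneous_C (Fin (n + 1)) (eval x f₀)⁻¹).mul hf1
    rwa [zero_add] at this
  · rw [map_mul, eval_C, inv_mul_cancel₀ hf2]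
  · intro y hy hyx
    rw [map_mul, hf3 y hy hyx, mul_zero]

/-- exponents of a monomial in the coordinates on the curves and on `ℙⁿ` -/
abbrev Ex (r n : ℕ) : Type := (Fin r → Fin 3 → ℕ) × (Fin (n + 1) → ℕ)

/-- the value of the monomial `V^{m.1} x^{m.2}` -/
def mono {A : Type} [CommRing A] {r n : ℕ} (m : Ex r n) (V : Fin r → Fin 3 → A)
    (x : Fin (n + 1) → A) : A :=
  (∏ i, ∏ k, V i k ^ m.1 i k) * ∏ l, x l ^ m.2 l

/-- the `j`-th form with coefficients `c` -/
def form {A : Type} [CommRing A] {r n : ℕ} (S : Fin n → Finset (Ex r n))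
    (c : ((j : Fin n) × S j) → A) (V : Fin r → Fin 3 → A) (x : Fin (n + 1) → A) (j : Fin n) : A :=
  ∑ m : S j, c ⟨j, m⟩ * mono m.1 V x

/-- the exponent of `∏ V_{i,σ i}^{d i}` -/
def pure {r : ℕ} (d : Fin r → ℕ) (σ : Fin r → Fin 3) : Fin r → Fin 3 → ℕ :=
  fun i k => if k = σ i then d i else 0

/-- the sets of exponents have the right degrees and contain all products of a pure monomial in `V` and an
arbitrary monomial in `x` -/
def Full {r n : ℕ} (d : Fin n → Fin r → ℕ) (e : Fin n → ℕ) (S : Fin n → Finset (Ex r n)) : Prop :=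
  (∀ j, ∀ m ∈ S j, (∀ i, ∑ k, m.1 i k = d j i) ∧ ∑ l, m.2 l = e j) ∧
  ∀ j (σ : Fin r → Fin 3) (μ : Fin (n + 1) → ℕ), ∑ l, μ l = e j → (pure (d j) σ, μ) ∈ S j

/-- evaluation at the points as a linear map -/
def evalMap {F : Type} [Field F] {r n : ℕ} (S : Fin n → Finset (Ex r n)) (V : Fin r → Fin 3 → F)
    {ι : Type} (pt : ι → Fin (n + 1) → F) : (((j : Fin n) × S j) → F) →ₗ[F] (ι → Fin n → F) where
  toFun c := fun t j => form S c V (pt t) j
  map_add' c c' := by
    funext t j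
    simp [form, add_mul, Finset.sum_add_distrib]
  map_smul' a c := by
    funext t j
    simp [form, Finset.mul_sum, mul_assoc]

theorem form_single {F : Type} [Field F] {r n : ℕ} (d : Fin n → Fin r → ℕ) (e : Fin n → ℕ)
    (S : Fin n → Finset (Ex r n)) (hS : Full d e S) (V : Fin r → Fin 3 → F) (hV : ∀ i, V i ≠ 0)
    (j : Fin n) (f : MvPolynomial (Fin (n + 1)) F) (hf : f.IsHomogeneous (e j)) :
    ∃ c : ((j : Fin n) × S j) → F, ∀ x j', form S c V x j' = if j' = j then eval x f else 0 := by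
  classical
  have h1 : ∀ i, ∃ k, V i k ≠ 0 := fun i => Function.ne_iff.1 (hV i)
  choose σ hσ using h1
  obtain ⟨w, hw⟩ : ∃ w : F, w = ∏ i, V i (σ i) ^ d j i := ⟨_, rfl⟩
  have hw0 : w ≠ 0 := by
    rw [hw]
    exact Finset.prod_ne_zero_iff.2 fun i _ => pow_ne_zero _ (hσ i)
  have hpure : ∏ i, ∏ k, V i k ^ pure (d j) σ i k = w := by
    rw [hw]
    refine Finset.prod_congr rfl fun i _ => ?_
    rw [Finset.prod_eq_single (σ i)]
    · simp [pure]
    · intro k _ hk
      simp [pure, hk]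
    · intro h
      exact absurd (Finset.mem_univ _) h
  refine ⟨fun m => if m.1 = j ∧ m.2.1.1 = pure (d j) σ then
    coeff (Finsupp.equivFunOnFinite.symm m.2.1.2) f * w⁻¹ else 0, fun x j' => ?_⟩
  unfold form
  by_cases hj : j' = j
  · subst hj
    rw [if_pos rfl, eval_eq']
    have h2 : ∑ m : S j', (if j' = j' ∧ m.1.1 = pure (d j') σ then
        coeff (Finsupp.equivFunOnFinite.symm m.1.2) f * w⁻¹ else 0) * mono m.1 V x =
        ∑ m ∈ S j', (if m.1 = pure (d j') σ then
          coeff (Finsupp.equivFunOnFinite.symm m.2) f * w⁻¹ else 0) * mono m V x := by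
      rw [← Finset.sum_coe_sort (S j')]
      refine Finset.sum_congr rfl fun m _ => ?_
      simp
    refine Eq.trans h2 ?_
    have hinj : ∀ μ ∈ f.support, ∀ μ' ∈ f.support,
        ((pure (d j') σ, ⇑μ) : Ex r n) = (pure (d j') σ, ⇑μ') → μ = μ' := by
      intro μ _ μ' _ h
      exact DFunLike.coe_injective (congrArg Prod.snd h)
    have hsub : f.support.image (fun μ : Fin (n + 1) →₀ ℕ => ((pure (d j') σ, ⇑μ) : Ex r n)) ⊆ S j' := by
      intro m hm
      obtain ⟨μ, hμ, rfl⟩ := Finset.mem_image.1 hm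
      apply hS.2
      have h5 := hf (mem_support_iff.1 hμ)
      rw [Finsupp.weight_apply, Finsupp.sum_fintype _ _ (by simp)] at h5
      simpa using h5
    rw [← Finset.sum_subset hsub]
    · rw [Finset.sum_image hinj]
      refine Finset.sum_congr rfl fun μ _ => ?_
      rw [if_pos rfl]
      unfold mono
      rw [hpure]
      have : Finsupp.equivFunOnFinite.symm (⇑μ) = μ := by
        ext; rfl
      rw [this]
      field_simp
    · intro m _ hm
      by_cases hm1 : m.1 = pure (d j') σ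
      · rw [if_pos hm1]
        have : coeff (Finsupp.equivFunOnFinite.symm m.2) f = 0 := by
          by_contra hc
          apply hm
          rw [Finset.mem_image]
          refine ⟨_, mem_support_iff.2 hc, ?_⟩
          rw [← hm1]
          rfl
        rw [this, zero_mul, zero_mul]
      · rw [if_neg hm1, zero_mul]
  · rw [if_neg hj]
    apply Finset.sum_eq_zero
    intro m _
    simp only
    rw [if_neg (fun h => hj h.1), zero_mul]

theorem evalMap_surj {F : Type} [Field F] {r n : ℕ} (d : Fin n → Fin r → ℕ) (e : Fin n → ℕ)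
    (he : ∀ j, 2 ≤ e j)
    (S : Fin n → Finset (Ex r n)) (hS : Full d e S) (V : Fin r → Fin 3 → F) (hV : ∀ i, V i ≠ 0)
    {ι : Type} [Fintype ι] (hι : Fintype.card ι ≤ 3) (pt : ι → Fin (n + 1) → F)
    (h0 : ∀ t, pt t ≠ 0) (h1 : ∀ s t, s ≠ t → ∀ a : F, pt s ≠ a • pt t) :
    Function.Surjective (evalMap S V pt) := by
  classical
  have hinj : Function.Injective pt := by
    intro s t h
    by_contra hne
    exact h1 s t hne 1 (by rw [one_smul]; exact h)
  have key : ∀ (t : ι) (j : Fin n), ∃ c, evalMap S V pt c = Pi.single t (Pi.single j 1) := by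
    intro t j
    obtain ⟨f, hf1, hf2, hf3⟩ := exists_form (e j) (he j) (Finset.univ.image pt)
      (le_trans Finset.card_image_le hι)
      (by intro y hy; obtain ⟨s, -, rfl⟩ := Finset.mem_image.1 hy; exact h0 s)
      (by
        intro y hy z hz hyz
        obtain ⟨s, -, rfl⟩ := Finset.mem_image.1 hy
        obtain ⟨s', -, rfl⟩ := Finset.mem_image.1 hz
        exact h1 s s' (fun h => hyz (by rw [h])))
      (pt t) (Finset.mem_image_of_mem _ (Finset.mem_univ t))
    obtain ⟨c, hc⟩ := form_single d e S hS V hV j f hf1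
    refine ⟨c, ?_⟩
    funext s j'
    change form S c V (pt s) j' = _
    rw [hc]
    by_cases hs : s = t
    · subst hs
      rw [Pi.single_eq_same]
      by_cases hj : j' = j
      · subst hj
        rw [if_pos rfl, Pi.single_eq_same, hf2]
      · rw [if_neg hj, Pi.single_eq_of_ne hj]
    · rw [Pi.single_eq_of_ne hs]
      have := hf3 (pt s) (Finset.mem_image_of_mem _ (Finset.mem_univ s)) (fun h => hs (hinj h))
      rw [this]
      simp
  rw [← LinearMap.range_eq_top, eq_top_iff]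
  intro g _
  have hg : g = ∑ t, ∑ j, g t j • (Pi.single t (Pi.single j 1) : ι → Fin n → F) := by
    funext s j
    simp only [Finset.sum_apply, Pi.smul_apply, smul_eq_mul]
    rw [Finset.sum_eq_single s]
    · rw [Finset.sum_eq_single j]
      · simp
      · intro j' _ hj'
        simp [Pi.single_eq_of_ne (Ne.symm hj')]
      · simp
    · intro t _ ht
      apply Finset.sum_eq_zero
      intro j' _
      simp [Pi.single_eq_of_ne (Ne.symm ht)]
    · simp
  rw [hg]
  refine Submodule.sum_mem _ fun t _ => Submodule.sum_mem _ fun j _ => Submodule.smul_mem _ _ ?_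
  obtain ⟨c, hc⟩ := key t j
  exact ⟨c, hc⟩

theorem form_smul {F : Type} [Field F] {r n : ℕ} (e : Fin n → ℕ) (S : Fin n → Finset (Ex r n))
    (hS : ∀ j, ∀ m ∈ S j, ∑ l, m.2 l = e j) (c : ((j : Fin n) × S j) → F) (V : Fin r → Fin 3 → F)
    (x : Fin (n + 1) → F) (a : F) (j : Fin n) : form S c V (a • x) j = a ^ e j * form S c V x j := by
  unfold form
  rw [Finset.mul_sum]
  refine Finset.sum_congr rfl fun m _ => ?_
  have h1 : ∏ l, (a • x) l ^ m.1.2 l = a ^ e j * ∏ l, x l ^ m.1.2 l := by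
    rw [← hS j m.1 m.2, ← Finset.prod_pow_eq_pow_sum, ← Finset.prod_mul_distrib]
    refine Finset.prod_congr rfl fun l _ => ?_
    rw [Pi.smul_apply, smul_eq_mul, mul_pow]
  unfold mono
  rw [h1]
  ring

theorem card_ker {F : Type} [Field F] {W U : Type} [AddCommGroup W] [Module F W] [AddCommGroup U]
    [Module F U] (L : W →ₗ[F] U) (hL : Function.Surjective L) :
    Nat.card (LinearMap.ker L) * Nat.card U = Nat.card W := by
  rw [Submodule.card_eq_card_quotient_mul_card (LinearMap.ker L),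
    Nat.card_congr (L.quotKerEquivOfSurjective hL).toEquiv, mul_comm]

open scoped LinearAlgebra.Projectivization

theorem rep_ne {F : Type} [Field F] {W : Type} [AddCommGroup W] [Module F W] (P Q : ℙ F W) (h : P ≠ Q)
    (a : F) : P.rep ≠ a • Q.rep := by
  intro he
  apply h
  rw [← P.mk_rep, ← Q.mk_rep]
  exact (Projectivization.mk_eq_mk_iff' F _ _ P.rep_nonzero Q.rep_nonzero).2 ⟨a, he.symm⟩

theorem card_K {F : Type} [Field F] [Fintype F] {r n : ℕ} (d : Fin n → Fin r → ℕ) (e : Fin n → ℕ)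
    (he : ∀ j, 2 ≤ e j)
    (S : Fin n → Finset (Ex r n)) (hS : Full d e S) (V : Fin r → Fin 3 → F) (hV : ∀ i, V i ≠ 0)
    (K : Finset (ℙ F (Fin (n + 1) → F))) (hK : K.card ≤ 3) :
    Nat.card {c : ((j : Fin n) × S j) → F // ∀ P ∈ K, ∀ j, form S c V P.rep j = 0} *
      ((Fintype.card F) ^ n) ^ K.card = (Fintype.card F) ^ (Fintype.card ((j : Fin n) × S j)) := by
  classical
  have h1 := card_ker _ (evalMap_surj d e he S hS V hV (ι := K) (by simpa using hK)
    (fun P => P.1.rep) (fun P => P.1.rep_nonzero)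
    (fun P Q h a => rep_ne P.1 Q.1 (fun h' => h (Subtype.ext h')) a))
  have h2 : Nat.card {c : ((j : Fin n) × S j) → F // ∀ P ∈ K, ∀ j, form S c V P.rep j = 0} =
      Nat.card (LinearMap.ker (evalMap S V (fun P : K => P.1.rep))) := by
    apply Nat.card_congr
    refine Equiv.subtypeEquivRight fun c => ?_
    rw [LinearMap.mem_ker]
    constructor
    · intro h
      funext P j
      exact h P.1 P.2 j
    · intro h P hP j
      exact congrFun (congrFun h ⟨P, hP⟩) j
  rw [h2]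
  simpa using h1

theorem bonf (z : ℕ) (hz : 1 ≤ z) : (1 : ℝ) ≤ (z.choose 1 : ℝ) - (z.choose 2 : ℝ) + (z.choose 3 : ℝ) := by
  rcases Nat.lt_or_ge z 3 with h | h
  · interval_cases z <;> norm_num [Nat.choose]
  · have h2 : ((z.choose 2 : ℕ) : ℝ) = z * (z - 1) / 2 := Nat.cast_choose_two ℝ z
    have h3 : ((z.choose 3 : ℕ) : ℝ) * 6 = z * (z - 1) * (z - 2) := by
      have h4 := Nat.add_one_mul_choose_eq z 2
      have h5 := Nat.choose_succ_right_eq z 2
      have h6 : ((z.choose 3 : ℕ) : ℝ) * 3 = (z.choose 2 : ℝ) * (z - 2) := by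
        have : ((z.choose (2 + 1) * (2 + 1) : ℕ) : ℝ) = ((z.choose 2 * (z - 2) : ℕ) : ℝ) := by rw [h5]
        push_cast [Nat.cast_sub (show 2 ≤ z by omega)] at this
        norm_num at this
        linarith
      rw [h2] at h6
      linarith
    obtain ⟨w, rfl⟩ := Nat.exists_eq_add_of_le h
    rw [h2, Nat.choose_one_right]
    push_cast at h3 ⊢
    have hw : (0 : ℝ) ≤ w := Nat.cast_nonneg w
    nlinarith [mul_nonneg hw hw, mul_nonneg (mul_nonneg hw hw) hw]

theorem bonf0 (z : ℕ) : (0 : ℝ) ≤ (z.choose 1 : ℝ) - (z.choose 2 : ℝ) + (z.choose 3 : ℝ) := by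
  rcases Nat.eq_zero_or_pos z with rfl | h
  · norm_num [Nat.choose]
  · linarith [bonf z h]

theorem sum_choose {C P : Type} [Fintype C] [Fintype P] [DecidableEq P] (Z : C → Finset P) (k : ℕ) :
    ∑ c, ((Z c).card.choose k : ℝ) =
      ∑ K ∈ Finset.powersetCard k (Finset.univ : Finset P), (Nat.card {c // K ⊆ Z c} : ℝ) := by
  classical
  have h1 : ∀ c, ((Z c).card.choose k : ℝ) =
      ∑ K ∈ Finset.powersetCard k (Finset.univ : Finset P), if K ⊆ Z c then (1 : ℝ) else 0 := by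
    intro c
    rw [← Finset.card_powersetCard, ← Finset.sum_filter, Finset.sum_const, nsmul_one]
    congr 2
    ext K
    simp only [Finset.mem_powersetCard, Finset.mem_filter, Finset.subset_univ, true_and]
    tauto
  simp_rw [h1]
  rw [Finset.sum_comm]
  refine Finset.sum_congr rfl fun K _ => ?_
  rw [← Finset.sum_filter, Finset.sum_const, nsmul_one, Nat.card_eq_fintype_card, Fintype.card_subtype]

/-- the local density -/
theorem dens {F : Type} [Field F] [Fintype F] (hF : 101 ≤ Fintype.card F) {r n : ℕ} (hn : 1 ≤ n)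
    (d : Fin n → Fin r → ℕ) (e : Fin n → ℕ) (he : ∀ j, 2 ≤ e j)
    (S : Fin n → Finset (Ex r n)) (hS : Full d e S) (V : Fin r → Fin 3 → F) (hV : ∀ i, V i ≠ 0) :
    (({c : ((j : Fin n) × S j) → F | ∃ x : Fin (n + 1) → F, x ≠ 0 ∧ ∀ j, form S c V x j = 0}.ncard : ℕ) : ℝ) ≤
      (1 - 1 / 4) * (Fintype.card F : ℝ) ^ (Fintype.card ((j : Fin n) × S j)) := by
  classical
  obtain ⟨q, hq⟩ : ∃ q, q = Fintype.card F := ⟨_, rfl⟩
  obtain ⟨N, hN⟩ : ∃ N, N = Fintype.card ((j : Fin n) × S j) := ⟨_, rfl⟩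
  have hfinP : Finite (ℙ F (Fin (n + 1) → F)) := inferInstance
  have : Fintype (ℙ F (Fin (n + 1) → F)) := Fintype.ofFinite _
  obtain ⟨m, hm⟩ : ∃ m, m = Fintype.card (ℙ F (Fin (n + 1) → F)) := ⟨_, rfl⟩
  obtain ⟨Z, hZ⟩ : ∃ Z : (((j : Fin n) × S j) → F) → Finset (ℙ F (Fin (n + 1) → F)),
      Z = fun c => Finset.univ.filter fun P => ∀ j, form S c V P.rep j = 0 := ⟨_, rfl⟩
  have hq0 : (0 : ℝ) < q := by
    rw [hq]
    exact_mod_cast Fintype.card_pos
  have hcount : ∀ k ≤ 3, ∑ c, ((Z c).card.choose k : ℝ) = (m.choose k : ℝ) * ((q : ℝ) ^ N / ((q : ℝ) ^ n) ^ k) := by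
    intro k hk
    rw [sum_choose]
    have h1 : ∀ K ∈ Finset.powersetCard k (Finset.univ : Finset (ℙ F (Fin (n + 1) → F))),
        (Nat.card {c // K ⊆ Z c} : ℝ) = (q : ℝ) ^ N / ((q : ℝ) ^ n) ^ k := by
      intro K hK
      rw [Finset.mem_powersetCard] at hK
      have h2 := card_K d e he S hS V hV K (by omega)
      have h3 : Nat.card {c // K ⊆ Z c} =
          Nat.card {c : ((j : Fin n) × S j) → F // ∀ P ∈ K, ∀ j, form S c V P.rep j = 0} := by
        apply Nat.card_congr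
        refine Equiv.subtypeEquivRight fun c => ?_
        rw [hZ]
        constructor
        · intro h P hP
          exact (Finset.mem_filter.1 (h hP)).2
        · intro h P hP
          exact Finset.mem_filter.2 ⟨Finset.mem_univ _, h P hP⟩
      rw [h3, eq_div_iff (by positivity), ← hK.2]
      rw [← hq, ← hN] at h2
      exact_mod_cast h2
    rw [Finset.sum_congr rfl h1, Finset.sum_const, Finset.card_powersetCard, Finset.card_univ, ← hm,
      nsmul_eq_mul]
  have hle : (({c : ((j : Fin n) × S j) → F | ∃ x : Fin (n + 1) → F, x ≠ 0 ∧ ∀ j, form S c V x j = 0}.ncard : ℕ) : ℝ) ≤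
      ∑ c, (((Z c).card.choose 1 : ℝ) - ((Z c).card.choose 2 : ℝ) + ((Z c).card.choose 3 : ℝ)) := by
    have h1 : ({c : ((j : Fin n) × S j) → F | ∃ x : Fin (n + 1) → F, x ≠ 0 ∧ ∀ j, form S c V x j = 0}.ncard : ℝ) =
        ∑ c, if (∃ x : Fin (n + 1) → F, x ≠ 0 ∧ ∀ j, form S c V x j = 0) then (1 : ℝ) else 0 := by
      rw [← Finset.sum_filter, Finset.sum_const, nsmul_one, ← Set.ncard_coe_finset]
      congr 2
      ext c
      simp
    rw [h1]
    refine Finset.sum_le_sum fun c _ => ?_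
    by_cases h : ∃ x : Fin (n + 1) → F, x ≠ 0 ∧ ∀ j, form S c V x j = 0
    · rw [if_pos h]
      apply bonf
      obtain ⟨x, hx, h0⟩ := h
      rw [Finset.one_le_card]
      refine ⟨Projectivization.mk F x hx, ?_⟩
      rw [hZ]
      refine Finset.mem_filter.2 ⟨Finset.mem_univ _, fun j => ?_⟩
      obtain ⟨a, ha⟩ := Projectivization.exists_smul_eq_mk_rep F x hx
      rw [← ha]
      have := form_smul e S (fun j m hm => (hS.1 j m hm).2) c V x (a : F) j
      rw [h0 j, mul_zero] at this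
      exact this
    · rw [if_neg h]
      exact bonf0 _
  refine le_trans hle ?_
  rw [Finset.sum_add_distrib, Finset.sum_sub_distrib, hcount 1 (by norm_num), hcount 2 (by norm_num),
    hcount 3 (by norm_num), ← hq, ← hN]
  -- the size of the projective space
  have hmcard : m = ∑ i ∈ Finset.range (n + 1), q ^ i := by
    rw [hm, ← Nat.card_eq_fintype_card, Projectivization.card_of_finrank F (Fin (n + 1) → F) (by simp : Module.finrank F (Fin (n + 1) → F) = n + 1),
      Nat.card_eq_fintype_card, hq]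
  have hq101 : (101 : ℝ) ≤ q := by rw [hq]; exact_mod_cast hF
  have hm1 : (q : ℝ) ^ n + 1 ≤ m := by
    rw [hmcard, Finset.sum_range_succ]
    push_cast
    have : (1 : ℝ) ≤ ∑ i ∈ Finset.range n, (q : ℝ) ^ i := by
      have h2 : (q : ℝ) ^ 0 ≤ ∑ i ∈ Finset.range n, (q : ℝ) ^ i :=
        Finset.single_le_sum (f := fun i => (q : ℝ) ^ i) (fun i _ => by positivity)
          (Finset.mem_range.2 (by omega))
      simpa using h2
    linarith
  have hm2 : (m : ℝ) * (q - 1) ≤ q * (q : ℝ) ^ n := by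
    have h2 := Commute.geom_sum₂_mul (Commute.one_right (q : ℝ)) (n + 1)
    have h3 := geom_sum_mul (q : ℝ) (n + 1)
    rw [hmcard]
    push_cast
    rw [h3, pow_succ]
    linarith
  have hQ : (0 : ℝ) < (q : ℝ) ^ n := by positivity
  have hX : (0 : ℝ) < (q : ℝ) ^ N := by positivity
  obtain ⟨Q, hQd⟩ : ∃ Q : ℝ, Q = (q : ℝ) ^ n := ⟨_, rfl⟩
  obtain ⟨X, hXd⟩ : ∃ X : ℝ, X = (q : ℝ) ^ N := ⟨_, rfl⟩
  rw [← hQd] at hm1 hm2 hQ ⊢
  rw [← hXd] at hX ⊢
  obtain ⟨u, hu⟩ : ∃ u : ℝ, u = m / Q := ⟨_, rfl⟩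
  have hmu : (m : ℝ) = u * Q := by rw [hu]; field_simp
  have hm3 : 3 ≤ m := by
    have : (1 : ℝ) ≤ Q := by
      rw [hQd]
      exact one_le_pow₀ (by linarith)
    have h101 : (101 : ℝ) ≤ Q := by
      rw [hQd]
      calc (101 : ℝ) ≤ (q : ℝ) ^ 1 := by rw [pow_one]; exact hq101
        _ ≤ (q : ℝ) ^ n := pow_le_pow_right₀ (by linarith) hn
    have : (3 : ℝ) ≤ m := by linarith
    exact_mod_cast this
  have hc2 : ((m.choose 2 : ℕ) : ℝ) = m * (m - 1) / 2 := Nat.cast_choose_two ℝ m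
  have hc3 : ((m.choose 3 : ℕ) : ℝ) = m * (m - 1) * (m - 2) / 6 := by
    have h5 := Nat.choose_succ_right_eq m 2
    have h6 : ((m.choose 3 : ℕ) : ℝ) * 3 = (m.choose 2 : ℝ) * (m - 2) := by
      have : ((m.choose (2 + 1) * (2 + 1) : ℕ) : ℝ) = ((m.choose 2 * (m - 2) : ℕ) : ℝ) := by rw [h5]
      push_cast [Nat.cast_sub (show 2 ≤ m by omega)] at this
      norm_num at this
      linarith
    rw [hc2] at h6
    linarith
  rw [Nat.choose_one_right, hc2, hc3]
  have hu1 : 1 ≤ u - 1 / Q := by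
    rw [hu, ← sub_div, le_div_iff₀ hQ]
    linarith
  have hu2 : u ≤ 1.01 := by
    rw [hu, div_le_iff₀ hQ]
    by_contra hcon
    push Not at hcon
    have h7 : (1.01 * Q) * (q - 1) < q * Q := lt_of_lt_of_le (mul_lt_mul_of_pos_right hcon (by linarith)) hm2
    nlinarith
  have hu0 : 0 ≤ u := by
    have : 0 < 1 / Q := by positivity
    linarith
  have e1 : (m : ℝ) * (X / Q ^ 1) = u * X := by
    rw [hmu]; field_simp
  have e2 : (m : ℝ) * (m - 1) / 2 * (X / Q ^ 2) = u * (u - 1 / Q) / 2 * X := by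
    rw [hmu]; field_simp
  have e3 : (m : ℝ) * (m - 1) * (m - 2) / 6 * (X / Q ^ 3) = u * (u - 1 / Q) * (u - 2 / Q) / 6 * X := by
    rw [hmu]; field_simp
  rw [e1, e2, e3]
  have h8 : u * (u - 1 / Q) * (u - 2 / Q) ≤ u * u * u := by
    have hQ2 : 0 < 1 / Q := by positivity
    have hQ3 : 2 / Q = 2 * (1 / Q) := by ring
    have ha : u * (u - 1 / Q) ≤ u * u := mul_le_mul_of_nonneg_left (by linarith) hu0
    have hb : 0 ≤ u - 2 / Q ∨ u - 2 / Q < 0 := le_or_gt _ _
    rcases hb with hb | hb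
    · exact mul_le_mul ha (by rw [hQ3]; linarith) hb (by positivity)
    · have : u * (u - 1 / Q) * (u - 2 / Q) ≤ 0 :=
        mul_nonpos_of_nonneg_of_nonpos (mul_nonneg hu0 (by linarith)) hb.le
      have : 0 ≤ u * u * u := by positivity
      linarith
  have h9 : u - u * (u - 1 / Q) / 2 + u * (u - 1 / Q) * (u - 2 / Q) / 6 ≤ 1 - 1 / 4 := by
    have h10 : u ≤ u * (u - 1 / Q) := by nlinarith
    have h11 : u * u * u ≤ 1.01 * 1.01 * 1.01 := by
      gcongr
    linarith
  nlinarith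

end Pool.Agent.Helper3K9.CI
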