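import Pool.Agent.Helper3K9.CI.Gen2
import Pool.Agent.Helper3K9.CI.Dens

set_option autoImplicit false

/-! Almost all covers of degree `D` of `A` have no rational points, with a power saving. -/

namespace Pool.Agent.Helper3K9.CI

open MvPolynomial Pool.Agent.W659

/-- the value of the monomial `V^m` -/
def vmono {A : Type} [CommRing A] {r : ℕ} (m : Fin r → Fin 3 → ℕ) (V : Fin r → Fin 3 → A) : A :=
  ∏ i, ∏ k, V i k ^ m i k

/-- the polynomial `w^D + ∑_i (g_i(V) + ∑_m c_{i,m} V^m) w^{D-1-i}` -/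
noncomputable def cov {A : Type} [CommRing A] {r D : ℕ} (g : Fin D → MvPolynomial (Fin r × Fin 3) ℤ)
    (S : Fin D → Finset (Fin r → Fin 3 → ℕ)) (c : ((i : Fin D) × S i) → A)
    (V : Fin r → Fin 3 → A) (w : A) : A :=
  w ^ D + ∑ i : Fin D, (aeval (fun ij : Fin r × Fin 3 => V ij.1 ij.2) (g i) +
    ∑ m : S i, c ⟨i, m⟩ * vmono m.1 V) * w ^ (D - 1 - (i : ℕ))

/-- the linear part -/
noncomputable def lin {F : Type} [Field F] {r D : ℕ} {ι : Type}
    (S : Fin D → Finset (Fin r → Fin 3 → ℕ)) (V : Fin r → Fin 3 → F) (w : ι → F) :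
    (((i : Fin D) × S i) → F) →ₗ[F] (ι → F) where
  toFun c := fun t => ∑ i : Fin D, (∑ m : S i, c ⟨i, m⟩ * vmono m.1 V) * w t ^ (D - 1 - (i : ℕ))
  map_add' c c' := by
    funext t
    simp [add_mul, Finset.sum_add_distrib]
  map_smul' a c := by
    funext t
    simp [Finset.mul_sum, Finset.sum_mul, mul_assoc]

theorem cov_eq {F : Type} [Field F] {r D : ℕ} {ι : Type} (g : Fin D → MvPolynomial (Fin r × Fin 3) ℤ)
    (S : Fin D → Finset (Fin r → Fin 3 → ℕ)) (c : ((i : Fin D) × S i) → F)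
    (V : Fin r → Fin 3 → F) (w : ι → F) (t : ι) :
    cov g S c V (w t) = lin S V w c t + cov g S 0 V (w t) := by
  unfold cov lin
  simp only [LinearMap.coe_mk, AddHom.coe_mk, add_mul, Finset.sum_add_distrib, Pi.zero_apply, zero_mul,
    Finset.sum_const_zero, add_zero]
  ring

/-- the constant coefficient and the coefficient of `w` contain all the pure monomials -/
def Last {r : ℕ} (D : ℕ) (k : Fin r → ℕ) (S : Fin D → Finset (Fin r → Fin 3 → ℕ)) : Prop :=
  ∀ i : Fin D, D ≤ (i : ℕ) + 2 → ∀ σ : Fin r → Fin 3,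
    (fun l j => if j = σ l then ((i : ℕ) + 1) * k l else 0) ∈ S i

theorem lin_surj {F : Type} [Field F] {r D : ℕ} (hD : 2 ≤ D) (k : Fin r → ℕ)
    (S : Fin D → Finset (Fin r → Fin 3 → ℕ)) (hS : Last D k S)
    (V : Fin r → Fin 3 → F) (hV : ∀ i, V i ≠ 0) (w : Fin 2 → F) (hw : w 0 ≠ w 1) :
    Function.Surjective (lin S V w) := by
  classical
  have h1 : ∀ i, ∃ j, V i j ≠ 0 := fun i => Function.ne_iff.1 (hV i)
  choose σ hσ using h1
  have hpure : ∀ e : Fin r → ℕ, vmono (fun l j => if j = σ l then e l else 0) V ≠ 0 := by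
    intro e
    unfold vmono
    refine Finset.prod_ne_zero_iff.2 fun i _ => Finset.prod_ne_zero_iff.2 fun j _ => ?_
    change V i j ^ (if j = σ i then e i else 0) ≠ 0
    by_cases hj : j = σ i
    · rw [if_pos hj, hj]
      exact pow_ne_zero _ (hσ i)
    · rw [if_neg hj, pow_zero]
      exact one_ne_zero
  -- the two indices
  obtain ⟨i₁, hi₁⟩ : ∃ i : Fin D, (i : ℕ) = D - 2 := ⟨⟨D - 2, by omega⟩, rfl⟩
  obtain ⟨i₀, hi₀⟩ : ∃ i : Fin D, (i : ℕ) = D - 1 := ⟨⟨D - 1, by omega⟩, rfl⟩
  have hne : i₁ ≠ i₀ := by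
    intro h
    rw [h] at hi₁
    omega
  have hm1 := hS i₁ (by omega) σ
  have hm0 := hS i₀ (by omega) σ
  obtain ⟨m₁, hm₁⟩ : ∃ m : (i : Fin D) × S i, m = ⟨i₁, ⟨_, hm1⟩⟩ := ⟨_, rfl⟩
  obtain ⟨m₀, hm₀⟩ : ∃ m : (i : Fin D) × S i, m = ⟨i₀, ⟨_, hm0⟩⟩ := ⟨_, rfl⟩
  have key : ∀ (m : (i : Fin D) × S i) (a : F),
      lin S V w (Pi.single m a) = fun t => a * vmono m.2.1 V * w t ^ (D - 1 - (m.1 : ℕ)) := by
    intro m a
    funext t
    change ∑ i : Fin D, (∑ m' : S i, (Pi.single m a : ((i : Fin D) × S i) → F) ⟨i, m'⟩ * vmono m'.1 V) *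
      w t ^ (D - 1 - (i : ℕ)) = _
    rw [Finset.sum_eq_single m.1]
    · congr 1
      rw [Finset.sum_eq_single m.2]
      · rw [show (⟨m.1, m.2⟩ : (i : Fin D) × S i) = m from rfl, Pi.single_eq_same]
      · intro m' _ hm'
        rw [Pi.single_eq_of_ne, zero_mul]
        intro h
        apply hm'
        exact eq_of_heq (Sigma.mk.inj_iff.1 (h.trans (Sigma.eta m).symm)).2
      · intro h
        exact absurd (Finset.mem_univ _) h
    · intro i _ hi
      have : ∑ m' : S i, (Pi.single m a : ((i : Fin D) × S i) → F) ⟨i, m'⟩ * vmono m'.1 V = 0 := by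
        apply Finset.sum_eq_zero
        intro m' _
        rw [Pi.single_eq_of_ne, zero_mul]
        intro h
        apply hi
        rw [← h]
      rw [this, zero_mul]
    · intro h
      exact absurd (Finset.mem_univ _) h
  have hv1 : vmono m₁.2.1 V ≠ 0 := by
    rw [hm₁]
    exact hpure fun l => ((i₁ : ℕ) + 1) * k l
  have hv0 : vmono m₀.2.1 V ≠ 0 := by
    rw [hm₀]
    exact hpure fun l => ((i₀ : ℕ) + 1) * k l
  have hw' : w 0 - w 1 ≠ 0 := sub_ne_zero.2 hw
  intro y
  obtain ⟨α, hα⟩ : ∃ α : F, α = (y 0 - y 1) / (w 0 - w 1) := ⟨_, rfl⟩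
  obtain ⟨β, hβ⟩ : ∃ β : F, β = y 0 - α * w 0 := ⟨_, rfl⟩
  refine ⟨Pi.single m₁ (α / vmono m₁.2.1 V) + Pi.single m₀ (β / vmono m₀.2.1 V), ?_⟩
  rw [map_add, key, key]
  have e1 : D - 1 - (m₁.1 : ℕ) = 1 := by
    rw [hm₁]
    simp only
    omega
  have e0 : D - 1 - (m₀.1 : ℕ) = 0 := by
    rw [hm₀]
    simp only
    omega
  funext t
  simp only [Pi.add_apply, e1, e0, pow_one, pow_zero, mul_one]
  rw [div_mul_cancel₀ _ hv1, div_mul_cancel₀ _ hv0]
  fin_cases t
  · simp [hβ]
  · simp only [hβ, hα, Fin.mk_one]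
    field_simp
    ring

/-- the fibres of a surjective linear map -/
theorem card_fib {F : Type} [Field F] {W U : Type} [AddCommGroup W] [Module F W] [AddCommGroup U]
    [Module F U] (L : W →ₗ[F] U) (hL : Function.Surjective L) (u : U) :
    Nat.card {c : W // L c = u} * Nat.card U = Nat.card W := by
  obtain ⟨c₀, hc₀⟩ := hL u
  rw [← card_ker L hL]
  congr 1
  apply Nat.card_congr
  refine ⟨fun c => ⟨c.1 - c₀, ?_⟩, fun c => ⟨c.1 + c₀, ?_⟩, ?_, ?_⟩
  · rw [LinearMap.mem_ker, map_sub, c.2, hc₀, sub_self]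
  · rw [map_add, hc₀, LinearMap.mem_ker.1 c.2, zero_add]
  · intro c
    simp
  · intro c
    simp

/-- the local density -/
theorem cov_dens {F : Type} [Field F] [Fintype F] {r D : ℕ} (hD : 2 ≤ D) (k : Fin r → ℕ)
    (g : Fin D → MvPolynomial (Fin r × Fin 3) ℤ)
    (S : Fin D → Finset (Fin r → Fin 3 → ℕ)) (hS : Last D k S)
    (V : Fin r → Fin 3 → F) (hV : ∀ i, V i ≠ 0) :
    (({c : ((i : Fin D) × S i) → F | ∃ w, cov g S c V w = 0}.ncard : ℕ) : ℝ) ≤
      (1 - 1 / (2 * D)) * (Fintype.card F : ℝ) ^ (Fintype.card ((i : Fin D) × S i)) := by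
  classical
  obtain ⟨q, hq⟩ : ∃ q, q = Fintype.card F := ⟨_, rfl⟩
  obtain ⟨N, hN⟩ : ∃ N, N = Fintype.card ((i : Fin D) × S i) := ⟨_, rfl⟩
  have hq2 : 2 ≤ q := by
    rw [hq]
    exact Fintype.one_lt_card
  have hq0 : (0 : ℝ) < q := by
    have : (2 : ℝ) ≤ q := by exact_mod_cast hq2
    linarith
  obtain ⟨Z, hZ⟩ : ∃ Z : (((i : Fin D) × S i) → F) → Finset F,
      Z = fun c => Finset.univ.filter fun w => cov g S c V w = 0 := ⟨_, rfl⟩
  have hmem : ∀ c w, w ∈ Z c ↔ cov g S c V w = 0 := by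
    intro c w
    rw [hZ]
    simp
  -- at most `D` roots
  have hroots : ∀ c, (Z c).card ≤ D := by
    intro c
    obtain ⟨P, hP⟩ : ∃ P : Polynomial F, P = Polynomial.X ^ D + ∑ i : Fin D,
      Polynomial.C (aeval (fun ij : Fin r × Fin 3 => V ij.1 ij.2) (g i) +
        ∑ m : S i, c ⟨i, m⟩ * vmono m.1 V) * Polynomial.X ^ (D - 1 - (i : ℕ)) := ⟨_, rfl⟩
    have hdeg : (∑ i : Fin D, Polynomial.C (aeval (fun ij : Fin r × Fin 3 => V ij.1 ij.2) (g i) +
        ∑ m : S i, c ⟨i, m⟩ * vmono m.1 V) * Polynomial.X ^ (D - 1 - (i : ℕ)) : Polynomial F).degree < D := by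
      apply lt_of_le_of_lt (Polynomial.degree_sum_le _ _)
      rw [Finset.sup_lt_iff (by exact_mod_cast WithBot.bot_lt_coe D)]
      intro i _
      refine lt_of_le_of_lt (Polynomial.degree_C_mul_X_pow_le _ _) ?_
      have := i.2
      exact_mod_cast (show D - 1 - (i : ℕ) < D by omega)
    have hmon : P.Monic := by
      rw [hP]
      exact Polynomial.monic_X_pow_add hdeg
    have hnat : P.natDegree = D := by
      rw [hP]
      apply Polynomial.natDegree_eq_of_degree_eq_some
      rw [Polynomial.degree_add_eq_left_of_degree_lt (by rw [Polynomial.degree_X_pow]; exact hdeg),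
        Polynomial.degree_X_pow]
    have hev : ∀ w, P.eval w = cov g S c V w := by
      intro w
      rw [hP]
      unfold cov
      simp only [Polynomial.eval_add, Polynomial.eval_pow, Polynomial.eval_X, Polynomial.eval_finsetSum,
        Polynomial.eval_mul, Polynomial.eval_C]
    have hsub : Z c ⊆ P.roots.toFinset := by
      intro w hw
      rw [Multiset.mem_toFinset, Polynomial.mem_roots hmon.ne_zero, Polynomial.IsRoot.def, hev]
      exact (hmem c w).1 hw
    calc (Z c).card ≤ P.roots.toFinset.card := Finset.card_le_card hsub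
      _ ≤ Multiset.card P.roots := Multiset.toFinset_card_le _
      _ ≤ P.natDegree := P.card_roots'
      _ = D := hnat
  -- first moment
  have hfirst : ∑ c, ((Z c).card : ℝ) = (q : ℝ) ^ N := by
    have h1 : ∀ c, ((Z c).card : ℝ) = ∑ w : F, if cov g S c V w = 0 then (1 : ℝ) else 0 := by
      intro c
      rw [← Finset.sum_filter, Finset.sum_const, nsmul_one]
      rw [hZ]
    simp_rw [h1]
    rw [Finset.sum_comm]
    have h2 : ∀ w : F, ∑ c : ((i : Fin D) × S i) → F, (if cov g S c V w = 0 then (1 : ℝ) else 0) = (q : ℝ) ^ N / q := by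
      intro w
      obtain ⟨w', hw'⟩ : ∃ w' : F, w' ≠ w := exists_ne w
      have hs := lin_surj hD k S hS V hV ![w, w'] (by simpa using Ne.symm hw')
      -- project
      have hs1 : Function.Surjective ((LinearMap.proj (0 : Fin 2)).comp (lin S V ![w, w'])) :=
        (fun y => by
          obtain ⟨c, hc⟩ := hs (fun _ => y)
          exact ⟨c, by rw [LinearMap.comp_apply, hc]; rfl⟩)
      have h3 := card_fib _ hs1 (-cov g S 0 V w)
      rw [← Finset.sum_filter, Finset.sum_const, nsmul_one, eq_div_iff hq0.ne']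
      have h4 : (Finset.univ.filter fun c : ((i : Fin D) × S i) → F => cov g S c V w = 0).card =
          Nat.card {c // ((LinearMap.proj (0 : Fin 2)).comp (lin S V ![w, w'])) c = -cov g S 0 V w} := by
        rw [Nat.card_eq_fintype_card, Fintype.card_subtype]
        congr 1
        ext c
        simp only [Finset.mem_filter, Finset.mem_univ, true_and]
        have h5 := cov_eq g S c V ![w, w'] 0
        simp only [Matrix.cons_val_zero] at h5
        rw [h5, LinearMap.comp_apply, LinearMap.proj_apply, add_eq_zero_iff_eq_neg]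
      rw [h4]
      have h6 : Nat.card F = q := by rw [Nat.card_eq_fintype_card, hq]
      have h7 : Nat.card (((i : Fin D) × S i) → F) = q ^ N := by
        rw [Nat.card_eq_fintype_card, Fintype.card_fun, hq, hN]
      rw [h6, h7] at h3
      exact_mod_cast h3
    rw [Finset.sum_congr rfl fun w _ => h2 w, Finset.sum_const, Finset.card_univ, ← hq, nsmul_eq_mul]
    field_simp
  -- second moment
  have hsecond : ∑ c, ((Z c).card : ℝ) * ((Z c).card - 1) = (q : ℝ) ^ N * (1 - 1 / q) := by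
    have h1 : ∀ c, ((Z c).card : ℝ) * ((Z c).card - 1) =
        ∑ p ∈ (Finset.univ : Finset F).offDiag, if cov g S c V p.1 = 0 ∧ cov g S c V p.2 = 0 then (1 : ℝ) else 0 := by
      intro c
      rw [← Finset.sum_filter, Finset.sum_const, nsmul_one]
      have h2 : (Finset.univ : Finset F).offDiag.filter (fun p => cov g S c V p.1 = 0 ∧ cov g S c V p.2 = 0) =
          (Z c).offDiag := by
        ext p
        simp only [Finset.mem_filter, Finset.mem_offDiag, Finset.mem_univ, true_and, hmem]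
        tauto
      rw [h2, Finset.offDiag_card]
      rw [Nat.cast_sub (Nat.le_mul_self _)]
      push_cast
      ring
    simp_rw [h1]
    rw [Finset.sum_comm]
    have h2 : ∀ p ∈ (Finset.univ : Finset F).offDiag, ∑ c : ((i : Fin D) × S i) → F,
        (if cov g S c V p.1 = 0 ∧ cov g S c V p.2 = 0 then (1 : ℝ) else 0) = (q : ℝ) ^ N / q ^ 2 := by
      intro p hp
      rw [Finset.mem_offDiag] at hp
      have hs := lin_surj hD k S hS V hV ![p.1, p.2] (by simpa using hp.2.2)
      have h3 := card_fib _ hs (fun t => -cov g S 0 V (![p.1, p.2] t))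
      rw [← Finset.sum_filter, Finset.sum_const, nsmul_one, eq_div_iff (by positivity)]
      have h4 : (Finset.univ.filter fun c : ((i : Fin D) × S i) → F =>
          cov g S c V p.1 = 0 ∧ cov g S c V p.2 = 0).card =
          Nat.card {c // (lin S V ![p.1, p.2]) c = fun t => -cov g S 0 V (![p.1, p.2] t)} := by
        rw [Nat.card_eq_fintype_card, Fintype.card_subtype]
        congr 1
        ext c
        simp only [Finset.mem_filter, Finset.mem_univ, true_and]
        have h5 := cov_eq g S c V ![p.1, p.2] 0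
        have h5' := cov_eq g S c V ![p.1, p.2] 1
        simp only [Matrix.cons_val_zero, Matrix.cons_val_one] at h5 h5'
        rw [funext_iff, Fin.forall_fin_two, h5, h5']
        simp only [Matrix.cons_val_zero, Matrix.cons_val_one]
        rw [add_eq_zero_iff_eq_neg, add_eq_zero_iff_eq_neg]
      rw [h4]
      have h6 : Nat.card (Fin 2 → F) = q ^ 2 := by
        rw [Nat.card_eq_fintype_card, Fintype.card_fun, Fintype.card_fin, hq]
      have h7 : Nat.card (((i : Fin D) × S i) → F) = q ^ N := by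
        rw [Nat.card_eq_fintype_card, Fintype.card_fun, hq, hN]
      rw [h6, h7] at h3
      exact_mod_cast h3
    rw [Finset.sum_congr rfl h2, Finset.sum_const, Finset.offDiag_card, Finset.card_univ, ← hq, nsmul_eq_mul]
    rw [Nat.cast_sub (Nat.le_mul_self _)]
    push_cast
    field_simp
  -- conclusion
  have h1 : ({c : ((i : Fin D) × S i) → F | ∃ w, cov g S c V w = 0}.ncard : ℝ) =
      ∑ c, if (∃ w, cov g S c V w = 0) then (1 : ℝ) else 0 := by
    rw [← Finset.sum_filter, Finset.sum_const, nsmul_one, ← Set.ncard_coe_finset]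
    congr 2
    ext c
    simp
  have hD0 : (0 : ℝ) < D := by
    have : (2 : ℝ) ≤ D := by exact_mod_cast hD
    linarith
  have h2 : ∀ c, (if (∃ w, cov g S c V w = 0) then (1 : ℝ) else 0) ≤
      (Z c).card - (Z c).card * ((Z c).card - 1) / D := by
    intro c
    obtain ⟨z, hz⟩ : ∃ z, z = (Z c).card := ⟨_, rfl⟩
    have hzD : (z : ℝ) ≤ D := by
      rw [hz]
      exact_mod_cast hroots c
    rw [← hz]
    by_cases h : ∃ w, cov g S c V w = 0
    · rw [if_pos h]
      have hz1 : (1 : ℝ) ≤ z := by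
        rw [hz]
        obtain ⟨w, hw⟩ := h
        exact_mod_cast Finset.card_pos.2 ⟨w, (hmem c w).2 hw⟩
      have h3 : (z : ℝ) * (z - 1) / D ≤ z - 1 := by
        rw [div_le_iff₀ hD0]
        nlinarith
      linarith
    · rw [if_neg h]
      have hz0 : z = 0 := by
        rw [hz, Finset.card_eq_zero, Finset.eq_empty_iff_forall_notMem]
        intro w hw
        exact h ⟨w, (hmem c w).1 hw⟩
      rw [hz0]
      simp
  rw [h1]
  refine le_trans (Finset.sum_le_sum fun c _ => h2 c) ?_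
  rw [Finset.sum_sub_distrib, ← Finset.sum_div, hfirst, hsecond, ← hq, ← hN]
  have hX : (0 : ℝ) < (q : ℝ) ^ N := by positivity
  have h3 : 1 / (q : ℝ) ≤ 1 / 2 := by
    apply one_div_le_one_div_of_le (by norm_num)
    exact_mod_cast hq2
  have h4 : (q : ℝ) ^ N * (1 / 2) / D ≤ (q : ℝ) ^ N * (1 - 1 / q) / D := by
    gcongr
    linarith
  have h5 : (q : ℝ) ^ N * (1 / 2) / D = 1 / (2 * D) * (q : ℝ) ^ N := by
    field_simp
  linarith

end Pool.Agent.Helper3K9.CI
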