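import Pool.Agent.W659.FD.Main

set_option autoImplicit false

/-!
The random Mordell-Weil sieve for arbitrary families of subschemes of `A × ℙⁿ`, where `A` is a product of
elliptic curves which are supersingular at the primes `p ≡ -1 mod M`.
-/

namespace Pool.Agent.Helper3K9.CI

open MvPolynomial Pool.Agent.H901R3.MS WeierstrassCurve
open Pool.Agent.W659

/-- the polynomials with integer coefficients in the coordinates `V i j` (`i : Fin r`, `j : Fin 3`), the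
parameters `c k` (`k : Fin N`) and the homogeneous coordinates `x l` (`l : Fin (n + 1)`) -/
abbrev Poly (r N n : ℕ) : Type := MvPolynomial ((Fin r × Fin 3) ⊕ (Fin N ⊕ Fin (n + 1))) ℤ

/-- the value `F(V; c; x)` -/
noncomputable def val {A : Type} [CommRing A] {r N n : ℕ} (F : Poly r N n) (V : Fin r → Fin 3 → A)
    (c : Fin N → A) (x : Fin (n + 1) → A) : A :=
  aeval (Sum.elim (fun ij => V ij.1 ij.2) (Sum.elim c x)) F

/-- multihomogeneous of degree `d i` in the coordinates of the `i`-th curve and homogeneous of degree `e`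
in `x` -/
def MultiHomog {r N n : ℕ} (F : Poly r N n) (d : Fin r → ℕ) (e : ℕ) : Prop :=
  ∀ m ∈ F.support, (∀ i, ∑ j, m (Sum.inl (i, j)) = d i) ∧ ∑ l, m (Sum.inr (Sum.inr l)) = e

theorem val_map {A B : Type} [CommRing A] [CommRing B] (φ : A →+* B) {r N n : ℕ} (F : Poly r N n)
    (V : Fin r → Fin 3 → A) (c : Fin N → A) (x : Fin (n + 1) → A) :
    φ (val F V c x) = val F (fun i j => φ (V i j)) (fun k => φ (c k)) (fun l => φ (x l)) := by
  have h : (φ.toIntAlgHom.comp (aeval (Sum.elim (fun ij => V ij.1 ij.2) (Sum.elim c x))) :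
      Poly r N n →ₐ[ℤ] B) =
      aeval (Sum.elim (fun ij => φ (V ij.1 ij.2)) (Sum.elim (fun k => φ (c k)) (fun l => φ (x l)))) := by
    apply MvPolynomial.algHom_ext
    rintro (⟨i, j⟩ | k | l) <;> simp
  exact congrArg (fun f => f F) h

theorem val_expand {A : Type} [CommRing A] {r N n : ℕ} (F : Poly r N n) (V : Fin r → Fin 3 → A)
    (c : Fin N → A) (x : Fin (n + 1) → A) : val F V c x =
      ∑ m ∈ F.support, ((coeff m F : ℤ) : A) * ((∏ i, ∏ j, V i j ^ m (Sum.inl (i, j))) *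
        ((∏ k, c k ^ m (Sum.inr (Sum.inl k))) * ∏ l, x l ^ m (Sum.inr (Sum.inr l)))) := by
  unfold val
  rw [aeval_def, eval₂_eq']
  refine Finset.sum_congr rfl fun m _ => ?_
  rw [Fintype.prod_sum_type, Fintype.prod_prod_type, Fintype.prod_sum_type]
  simp

theorem val_scale {A : Type} [CommRing A] {r N n : ℕ} (F : Poly r N n) (d : Fin r → ℕ) (e : ℕ)
    (hF : MultiHomog F d e) (V : Fin r → Fin 3 → A) (c : Fin N → A) (x : Fin (n + 1) → A)
    (u : Fin r → A) (w : A) :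
    val F (fun i j => u i * V i j) c (fun l => w * x l) = ((∏ i, u i ^ d i) * w ^ e) * val F V c x := by
  rw [val_expand, val_expand, Finset.mul_sum]
  refine Finset.sum_congr rfl fun m hm => ?_
  obtain ⟨hm1, hm2⟩ := hF m hm
  have h1 : ∏ i, ∏ j, (u i * V i j) ^ m (Sum.inl (i, j)) =
      (∏ i, u i ^ d i) * ∏ i, ∏ j, V i j ^ m (Sum.inl (i, j)) := by
    rw [← Finset.prod_mul_distrib]
    refine Finset.prod_congr rfl fun i _ => ?_
    rw [← hm1 i, ← Finset.prod_pow_eq_pow_sum, ← Finset.prod_mul_distrib]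
    refine Finset.prod_congr rfl fun j _ => ?_
    rw [mul_pow]
  have h2 : ∏ l, (w * x l) ^ m (Sum.inr (Sum.inr l)) = w ^ e * ∏ l, x l ^ m (Sum.inr (Sum.inr l)) := by
    rw [← hm2, ← Finset.prod_pow_eq_pow_sum, ← Finset.prod_mul_distrib]
    refine Finset.prod_congr rfl fun l _ => ?_
    rw [mul_pow]
  rw [h1, h2]
  ring

/-- primitive coordinates at a place -/
theorem exists_prim {K k : Type} [Field K] [Field k] (v : Place K k) {ι : Type} [Fintype ι]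
    (x : ι → K) (hx : x ≠ 0) : ∃ l₀, x l₀ ≠ 0 ∧ ∀ l, (x l₀)⁻¹ * x l ∈ v.A := by
  classical
  have key : ∀ s : Finset ι, (∃ l ∈ s, x l ≠ 0) →
      ∃ l₀ ∈ s, x l₀ ≠ 0 ∧ ∀ l ∈ s, (x l₀)⁻¹ * x l ∈ v.A := by
    intro s
    induction s using Finset.induction_on with
    | empty => rintro ⟨l, hl, -⟩; simp at hl
    | insert a s ha ih =>
      intro hs
      by_cases h : ∃ l ∈ s, x l ≠ 0
      · obtain ⟨l₀, h1, h2, h3⟩ := ih h
        by_cases hmem : (x l₀)⁻¹ * x a ∈ v.A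
        · refine ⟨l₀, Finset.mem_insert_of_mem h1, h2, fun l hl => ?_⟩
          rcases Finset.mem_insert.1 hl with rfl | hl
          · exact hmem
          · exact h3 l hl
        · have hxa : x a ≠ 0 := by
            intro h0
            apply hmem
            rw [h0, mul_zero]
            exact v.A.zero_mem
          have hinv := v.inv_mem_of_notMem hmem
          rw [mul_inv, inv_inv] at hinv
          refine ⟨a, Finset.mem_insert_self _ _, hxa, fun l hl => ?_⟩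
          rcases Finset.mem_insert.1 hl with rfl | hl
          · rw [inv_mul_cancel₀ hxa]
            exact v.A.one_mem
          · have h4 := v.A.mul_mem hinv (h3 l hl)
            have h5 : x l₀ * (x a)⁻¹ * ((x l₀)⁻¹ * x l) = (x a)⁻¹ * x l := by
              field_simp
            rwa [h5] at h4
      · push Not at h
        obtain ⟨l, hl, hl0⟩ := hs
        rcases Finset.mem_insert.1 hl with rfl | hl
        · refine ⟨l, Finset.mem_insert_self _ _, hl0, fun l' hl' => ?_⟩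
          rcases Finset.mem_insert.1 hl' with rfl | hl'
          · rw [inv_mul_cancel₀ hl0]
            exact v.A.one_mem
          · rw [h l' hl', mul_zero]
            exact v.A.zero_mem
        · exact absurd (h l hl) hl0
  obtain ⟨l, hl⟩ := Function.ne_iff.1 hx
  obtain ⟨l₀, -, h1, h2⟩ := key Finset.univ ⟨l, Finset.mem_univ _, hl⟩
  exact ⟨l₀, h1, fun l => h2 l (Finset.mem_univ _)⟩

/-- reduction of a point -/
theorem local_pt {p : ℕ} [Fact p.Prime] (v : Place ℚ (ZMod p)) {r N n : ℕ} (a b : Fin r → ℤ)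
    (red : ∀ i, Pt (a i : ℚ) (b i : ℚ) → Pt (a i : ZMod p) (b i : ZMod p))
    (hrep : ∀ i, ∀ P : Pt (a i : ℚ) (b i : ℚ), ∃ u : ℚ, u ≠ 0 ∧
      ∀ j, u * rep P j ∈ v.A ∧ v.r (u * rep P j) = rep (red i P) j)
    {J : Type} (G : J → Poly r N n) (d : J → Fin r → ℕ) (e : J → ℕ) (hG : ∀ j, MultiHomog (G j) (d j) (e j))
    (P : ∀ i, Pt (a i : ℚ) (b i : ℚ)) (c : Fin N → ℤ) (x : Fin (n + 1) → ℚ) (hx : x ≠ 0)
    (h0 : ∀ j, val (G j) (fun i => rep (P i)) (fun k => (c k : ℚ)) x = 0) :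
    ∃ y : Fin (n + 1) → ZMod p, y ≠ 0 ∧
      ∀ j, val (G j) (fun i => rep (red i (P i))) (fun k => (c k : ZMod p)) y = 0 := by
  choose u hu0 hu1 using fun i => hrep i (P i)
  obtain ⟨l₀, hl₀, hmem⟩ := exists_prim v x hx
  obtain ⟨x', hx'⟩ : ∃ x' : Fin (n + 1) → v.A, x' = fun l => ⟨(x l₀)⁻¹ * x l, hmem l⟩ := ⟨_, rfl⟩
  obtain ⟨V', hV'⟩ : ∃ V' : Fin r → Fin 3 → v.A, V' = fun i j => ⟨u i * rep (P i) j, (hu1 i j).1⟩ := ⟨_, rfl⟩
  refine ⟨fun l => v.ρ (x' l), fun h => ?_, fun j => ?_⟩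
  · have h1 := congrFun h l₀
    have h2 : x' l₀ = 1 := by
      rw [hx']
      apply Subtype.ext
      simp [inv_mul_cancel₀ hl₀]
    simp only [h2, map_one] at h1
    exact one_ne_zero h1
  · have hz : val (G j) V' (fun k => ((c k : ℤ) : v.A)) x' = 0 := by
      apply Subtype.ext
      have h1 := val_map v.A.subtype (G j) V' (fun k => ((c k : ℤ) : v.A)) x'
      have h2 : (v.A.subtype (val (G j) V' (fun k => ((c k : ℤ) : v.A)) x')) =
        ((val (G j) V' (fun k => ((c k : ℤ) : v.A)) x' : v.A) : ℚ) := rfl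
      rw [← h2, h1]
      have h3 := val_scale (G j) (d j) (e j) (hG j) (fun i => rep (P i)) (fun k => (c k : ℚ)) x u (x l₀)⁻¹
      rw [h0 j, mul_zero] at h3
      refine Eq.trans ?_ h3
      rw [hV', hx']
      congr 1
    have h4 := val_map v.ρ (G j) V' (fun k => ((c k : ℤ) : v.A)) x'
    rw [hz, map_zero] at h4
    rw [h4]
    congr 1
    · funext i j
      have h3 := (hu1 i j).2
      rw [v.r_of (hu1 i j).1] at h3
      rw [hV']
      exact h3.symm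
    · funext k
      exact (map_intCast v.ρ (c k)).symm

/-- a rational point lies over a point with standard coordinates -/
theorem std_point (hPTS : PTS) {r N n : ℕ} (a b : Fin r → ℤ) (hdisc : ∀ i, Disc (a i : ℚ) (b i : ℚ))
    {J : Type} (G : J → Poly r N n) (d : J → Fin r → ℕ) (e : J → ℕ) (hG : ∀ j, MultiHomog (G j) (d j) (e j))
    (c : Fin N → ℚ) (x : Fin (n + 1) → ℚ) (V : Fin r → Fin 3 → ℚ) (hV : ∀ i, FD.OnE (a i) (b i) (V i))
    (h0 : ∀ j, val (G j) V c x = 0) :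
    ∃ (P : ∀ i, Pt (a i : ℚ) (b i : ℚ)), ∀ j, val (G j) (fun i => rep (P i)) c x = 0 := by
  have h1 : ∀ i, ∃ (P : Pt (a i : ℚ) (b i : ℚ)) (u : ℚ), u ≠ 0 ∧ ∀ j, V i j = u * rep P j :=
    fun i => hPTS (a i) (b i) (V i) (hdisc i) (hV i)
  choose P u hu0 hu1 using h1
  refine ⟨P, fun j => ?_⟩
  have h2 : V = fun i j => u i * rep (P i) j := by
    funext i j
    exact hu1 i j
  have h3 := val_scale (G j) (d j) (e j) (hG j) (fun i => rep (P i)) c x u 1
  simp only [one_mul, one_pow, mul_one] at h3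
  have h4 := h0 j
  rw [h2, h3] at h4
  rcases mul_eq_zero.1 h4 with h5 | h5
  · exfalso
    rw [Finset.prod_eq_zero_iff] at h5
    obtain ⟨i, -, hi⟩ := h5
    exact pow_ne_zero _ (hu0 i) hi
  · exact h5

/-- the general theorem -/
theorem general (r N n : ℕ) (hN : 1 ≤ N) (a b : Fin r → ℤ) (M D : ℕ) (hM : 0 < M) (hD : 0 < D)
    (hdisc : ∀ i, 4 * a i ^ 3 + 27 * b i ^ 2 ≠ 0)
    (hss : ∀ i, ∀ p : ℕ, p.Prime → ¬ p ∣ D → M ∣ p + 1 →
      Nat.card {z : ZMod p × ZMod p // z.2 ^ 2 = z.1 ^ 3 + a i * z.1 + b i} = p)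
    (J : Type) (G : J → Poly r N n) (d : J → Fin r → ℕ) (e : J → ℕ) (hG : ∀ j, MultiHomog (G j) (d j) (e j))
    (η : ℝ) (hη0 : 0 < η) (hη1 : η ≤ 1)
    (hloc : ∀ (p : ℕ) [Fact p.Prime], ¬ p ∣ D → M ∣ p + 1 →
      ∀ V : Fin r → Fin 3 → ZMod p, (∀ i, FD.OnE (a i) (b i) (V i)) →
        (({c : Fin N → ZMod p | ∃ x : Fin (n + 1) → ZMod p, x ≠ 0 ∧ ∀ j, val (G j) V c x = 0}.ncard : ℕ) : ℝ) ≤
          (1 - η) * (p : ℝ) ^ N)
    (ε : ℝ) (hε : 0 < ε) :
    ∃ C : ℝ, ∀ H : ℕ, 1 ≤ H →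
      (({c : Fin N → ℤ | (∀ k, |c k| ≤ H) ∧ ∃ (V : Fin r → Fin 3 → ℚ) (x : Fin (n + 1) → ℚ),
        (∀ i, FD.OnE (a i) (b i) (V i)) ∧ x ≠ 0 ∧ ∀ j, val (G j) V (fun k => (c k : ℚ)) x = 0}.ncard : ℕ) : ℝ) ≤
        C * (H : ℝ) ^ ((N : ℝ) - 1 / 5 + ε) := by
  classical
  have hRed : ∀ (K k : Type) [Field K] [Field k] [DecidableEq K] [DecidableEq k]
      (v : Place K k) (a b : ℤ), Disc (a : k) (b : k) →
      ∃ red : Pt (a : K) (b : K) →+ Pt (a : k) (b : k), IsRed v a b red := t_R6 t_R1 t_R2 t_R3 t_R4 t_R5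
  have hRep := t_R7 t_R1
  have hPL := t_PL
  have hPTS := t_PTS
  have hM1 := t_M1
  have hEXP := Pool.Agent.H477R5.DC.exp
  have hABS := Pool.Agent.W659.FD.absg
  have hdQ : ∀ i, Disc (a i : ℚ) (b i : ℚ) := fun i =>
    Pool.Agent.W659.FD.disc_of (by norm_num) (by exact_mod_cast hdisc i)
  have hfg : ∀ i, Module.Finite ℤ (Pt (a i : ℚ) (b i : ℚ)) := fun i =>
    Module.Finite.iff_addGroup_fg.2 (hM1 (a i) (b i) (hdQ i))
  have hFG : AddGroup.FG ((i : Fin r) → Pt (a i : ℚ) (b i : ℚ)) :=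
    Module.Finite.iff_addGroup_fg.1 inferInstance
  obtain ⟨D', hD'⟩ : ∃ D' : ℕ, D' = D * (∏ i, (4 * a i ^ 3 + 27 * b i ^ 2).natAbs) := ⟨_, rfl⟩
  have hD'pos : 0 < D' := by
    rw [hD']
    refine Nat.mul_pos hD (Nat.pos_of_ne_zero ?_)
    rw [Finset.prod_ne_zero_iff]
    intro i _
    exact Int.natAbs_ne_zero.2 (hdisc i)
  have key : ∀ p : ℕ, p.Prime → 2 < p → ¬ p ∣ D' → M ∣ p + 1 →
      ∃ Ωp : (∀ i, Pt (a i : ℚ) (b i : ℚ)) → Set (Fin N → ZMod p),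
        (∀ P P' R : (∀ i, Pt (a i : ℚ) (b i : ℚ)), P = P' + (p + 1) • R → Ωp P = Ωp P') ∧
        (∀ P, ((Ωp P).ncard : ℝ) ≤ (1 - η) * (p : ℝ) ^ N) ∧
        (∀ (P : ∀ i, Pt (a i : ℚ) (b i : ℚ)) (c : Fin N → ℤ) (x : Fin (n + 1) → ℚ), x ≠ 0 →
          (∀ j, val (G j) (fun i => rep (P i)) (fun k => (c k : ℚ)) x = 0) →
            (fun k => (c k : ZMod p)) ∈ Ωp P) := by
    intro p hp h2 hpD hMp
    have : Fact p.Prime := ⟨hp⟩
    have hpD1 : ¬ p ∣ D := fun h => hpD (by rw [hD']; exact h.mul_right _)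
    have hpd : ∀ i, ¬ (p : ℤ) ∣ 4 * a i ^ 3 + 27 * b i ^ 2 := by
      intro i h
      apply hpD
      rw [hD']
      apply Dvd.dvd.mul_left
      exact (Int.natCast_dvd.1 h).trans (Finset.dvd_prod_of_mem _ (Finset.mem_univ i))
    have h2p : (2 : ZMod p) ≠ 0 := by
      intro h
      have h3 : ((2 : ℕ) : ZMod p) = 0 := by exact_mod_cast h
      rw [ZMod.natCast_eq_zero_iff] at h3
      have := Nat.le_of_dvd (by norm_num) h3
      omega
    obtain ⟨v⟩ := hPL p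
    have hdp : ∀ i, Disc (a i : ZMod p) (b i : ZMod p) := fun i => Pool.Agent.W659.FD.disc_of h2p (by
      intro h
      exact hpd i ((ZMod.intCast_zmod_eq_zero_iff_dvd _ p).1 h))
    have h1 : ∀ i, ∃ red : Pt (a i : ℚ) (b i : ℚ) →+ Pt (a i : ZMod p) (b i : ZMod p),
        IsRed v (a i) (b i) red := fun i => hRed ℚ (ZMod p) v (a i) (b i) (hdp i)
    choose red hred using h1
    have hkill : ∀ i, ∀ P : Pt (a i : ZMod p) (b i : ZMod p), (p + 1) • P = 0 := by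
      intro i P
      have h5 : ((p : ℤ) + 1) • P = 0 := hEXP p (a i) (b i) h2 (hpd i) (hss i p hp hpD1 hMp) P
      rw [← natCast_zsmul]
      push_cast
      exact h5
    refine ⟨fun P => {c | ∃ x : Fin (n + 1) → ZMod p, x ≠ 0 ∧
      ∀ j, val (G j) (fun i => rep (red i (P i))) c x = 0}, ?_, ?_, ?_⟩
    · intro P P' R hP
      have h5 : (fun i => rep (red i (P i))) = fun i => rep (red i (P' i)) := by
        funext i
        have hPi : P i = P' i + (p + 1) • R i := by rw [hP]; rfl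
        rw [hPi, map_add, map_nsmul, hkill i, add_zero]
      simp only
      rw [h5]
    · intro P
      exact hloc p hpD1 hMp _ (fun i => Pool.Agent.W659.FD.onE_rep _)
    · intro P c x hx h0
      exact local_pt v a b (fun i => red i)
        (fun i P => hRep ℚ (ZMod p) v (a i) (b i) (red i) (hred i) P) G d e hG P c x hx h0
  choose Ω0 hΩ1 hΩ2 hΩ3 using key
  obtain ⟨Ω, hΩ⟩ : ∃ Ω : (p : ℕ) → (∀ i, Pt (a i : ℚ) (b i : ℚ)) → Set (Fin N → ZMod p), Ω = fun p P =>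
    {t | ∃ (h1 : p.Prime) (h2 : 2 < p) (h3 : ¬ p ∣ D') (h4 : M ∣ p + 1), t ∈ Ω0 p h1 h2 h3 h4 P} := ⟨_, rfl⟩
  have hΩeq : ∀ (p : ℕ) (h1 : p.Prime) (h2 : 2 < p) (h3 : ¬ p ∣ D') (h4 : M ∣ p + 1) P,
      Ω p P = Ω0 p h1 h2 h3 h4 P := by
    intro p h1 h2 h3 h4 P
    rw [hΩ]
    ext t
    constructor
    · rintro ⟨_, _, _, _, h⟩
      exact h
    · intro h
      exact ⟨h1, h2, h3, h4, h⟩
  obtain ⟨C, hC⟩ := hABS (∀ i, Pt (a i : ℚ) (b i : ℚ)) N hN M D' hM hD'pos Ω η hη0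
    hη1 (by
      intro p h1 h2 h3 h4
      constructor
      · intro P P' R hP
        rw [hΩeq p h1 h2 h3 h4, hΩeq p h1 h2 h3 h4]
        exact hΩ1 p h1 h2 h3 h4 P P' R hP
      · intro P
        rw [hΩeq p h1 h2 h3 h4]
        exact hΩ2 p h1 h2 h3 h4 P) ε hε
  refine ⟨C, fun H hH => ?_⟩
  refine le_trans ?_ (hC H hH)
  have hfin : {t : Fin N → ℤ | (∀ j, |t j| ≤ (H : ℤ)) ∧ ∃ P : (∀ i, Pt (a i : ℚ) (b i : ℚ)),
      ∀ p : ℕ, p.Prime → 2 < p → ¬ p ∣ D' → M ∣ p + 1 → (fun j => (t j : ZMod p)) ∈ Ω p P}.Finite := by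
    have : {c : Fin N → ℤ | ∀ j, c j ∈ Set.Icc (-(H : ℤ)) (H : ℤ)}.Finite :=
      Set.Finite.pi' fun _ => Set.finite_Icc _ _
    apply Set.Finite.subset this
    rintro c ⟨hc, -⟩ j
    exact ⟨(abs_le.1 (hc j)).1, (abs_le.1 (hc j)).2⟩
  have hsub : {c : Fin N → ℤ | (∀ k, |c k| ≤ H) ∧ ∃ (V : Fin r → Fin 3 → ℚ) (x : Fin (n + 1) → ℚ),
        (∀ i, FD.OnE (a i) (b i) (V i)) ∧ x ≠ 0 ∧ ∀ j, val (G j) V (fun k => (c k : ℚ)) x = 0} ⊆
      {t : Fin N → ℤ | (∀ j, |t j| ≤ (H : ℤ)) ∧ ∃ P : (∀ i, Pt (a i : ℚ) (b i : ℚ)),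
      ∀ p : ℕ, p.Prime → 2 < p → ¬ p ∣ D' → M ∣ p + 1 → (fun j => (t j : ZMod p)) ∈ Ω p P} := by
    rintro c ⟨hc, V, x, hV, hx, h0⟩
    obtain ⟨P, hP⟩ := std_point hPTS a b hdQ G d e hG _ x V hV h0
    refine ⟨hc, P, ?_⟩
    intro p h1 h2 h3 h4
    rw [hΩeq p h1 h2 h3 h4]
    exact hΩ3 p h1 h2 h3 h4 P c x hx hP
  exact_mod_cast Set.ncard_le_ncard hsub hfin

end Pool.Agent.Helper3K9.CI
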