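import Pool.Agent.Helper3K9.CI.Gen
import Pool.Agent.Helper3K9.CI.Dens

set_option autoImplicit false

/-! Almost all complete intersections in `A × ℙⁿ` have no rational points, with a power saving. -/

namespace Pool.Agent.Helper3K9.CI

open MvPolynomial Pool.Agent.W659

section

variable {r n N : ℕ} (S : Fin n → Finset (Ex r n)) (φ : ((j : Fin n) × S j) ≃ Fin N)

/-- the exponent of the monomial `c_m V^{m.1} x^{m.2}` -/
noncomputable def expo (m : (j : Fin n) × S j) : ((Fin r × Fin 3) ⊕ (Fin N ⊕ Fin (n + 1))) →₀ ℕ :=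
  Finsupp.equivFunOnFinite.symm
    (Sum.elim (fun ij => m.2.1.1 ij.1 ij.2) (Sum.elim (Pi.single (φ m) 1) m.2.1.2))

/-- the `j`-th universal polynomial -/
noncomputable def univ (j : Fin n) : Poly r N n := ∑ m : S j, monomial (expo S φ ⟨j, m⟩) (1 : ℤ)

theorem val_univ {A : Type} [CommRing A] (V : Fin r → Fin 3 → A) (c : Fin N → A)
    (x : Fin (n + 1) → A) (j : Fin n) :
    val (univ S φ j) V c x = form S (fun m => c (φ m)) V x j := by
  unfold val univ form
  rw [map_sum]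
  refine Finset.sum_congr rfl fun m _ => ?_
  rw [aeval_monomial, Finsupp.prod_fintype _ _ (by simp), Fintype.prod_sum_type, Fintype.prod_prod_type,
    Fintype.prod_sum_type]
  unfold expo mono
  simp only [Finsupp.equivFunOnFinite_symm_apply_apply, Sum.elim_inl, Sum.elim_inr, map_one, one_mul]
  have : ∏ k, c k ^ (Pi.single (φ ⟨j, m⟩) 1 : Fin N → ℕ) k = c (φ ⟨j, m⟩) := by
    rw [Finset.prod_eq_single (φ ⟨j, m⟩)]
    · simp
    · intro k _ hk
      simp [Pi.single_eq_of_ne hk]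
    · simp
  rw [this]
  ring

theorem homog_univ (d : Fin n → Fin r → ℕ) (e : Fin n → ℕ) (hS : Full d e S) (j : Fin n) :
    MultiHomog (univ S φ j) (d j) (e j) := by
  classical
  intro s hs
  have h1 := MvPolynomial.support_sum hs
  rw [Finset.mem_biUnion] at h1
  obtain ⟨m, -, hm⟩ := h1
  have h2 := support_monomial_subset hm
  rw [Finset.mem_singleton] at h2
  rw [h2]
  have h3 := hS.1 j m.1 m.2
  refine ⟨fun i => ?_, ?_⟩
  · rw [← h3.1 i]
    rfl
  · rw [← h3.2]
    rfl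

end

theorem complete_intersections (r n : ℕ) (hn : 1 ≤ n) (a b : Fin r → ℤ)
    (hab : ∀ i, a i * b i = 0 ∧ (a i ≠ 0 ∨ b i ≠ 0)) (d : Fin n → Fin r → ℕ) (e : Fin n → ℕ)
    (he : ∀ j, 2 ≤ e j) (S : Fin n → Finset (Ex r n)) (hS : Full d e S) (ε : ℝ) (hε : 0 < ε) :
    ∃ C : ℝ, ∀ H : ℕ, 1 ≤ H →
      (({c : ((j : Fin n) × S j) → ℤ | (∀ m, |c m| ≤ H) ∧
        ∃ (V : Fin r → Fin 3 → ℚ) (x : Fin (n + 1) → ℚ), (∀ i, FD.OnE (a i) (b i) (V i)) ∧ x ≠ 0 ∧
          ∀ j, form S (fun m => (c m : ℚ)) V x j = 0}.ncard : ℕ) : ℝ) ≤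
        C * (H : ℝ) ^ ((Fintype.card ((j : Fin n) × S j) : ℝ) - 1 / 5 + ε) := by
  classical
  obtain ⟨N, hN⟩ : ∃ N, N = Fintype.card ((j : Fin n) × S j) := ⟨_, rfl⟩
  obtain ⟨φ⟩ : Nonempty (((j : Fin n) × S j) ≃ Fin N) := by
    rw [hN]
    exact ⟨Fintype.equivFin _⟩
  have hN1 : 1 ≤ N := by
    rw [hN]
    apply Fintype.card_pos_iff.2
    refine ⟨⟨⟨0, hn⟩, ⟨(pure (d ⟨0, hn⟩) (fun _ => 0), fun l => if l = 0 then e ⟨0, hn⟩ else 0),
      hS.2 _ _ _ (by simp)⟩⟩⟩
  obtain ⟨C, hC⟩ := general r N n hN1 a b 12 (Nat.factorial 101) (by norm_num) (Nat.factorial_pos _) (by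
      intro i h
      obtain ⟨h1, h2⟩ := hab i
      rcases mul_eq_zero.1 h1 with h3 | h3
      · rw [h3] at h h2
        have h4 : (b i) ^ 2 = 0 := by linarith
        rcases h2 with h2 | h2
        · exact h2 rfl
        · exact h2 (pow_eq_zero_iff two_ne_zero |>.1 h4)
      · rw [h3] at h h2
        have h4 : (a i) ^ 3 = 0 := by linarith
        rcases h2 with h2 | h2
        · exact h2 (pow_eq_zero_iff three_ne_zero |>.1 h4)
        · exact h2 rfl)
    (fun i p hp _ hM => Pool.Agent.H35R6.DCCNT.cnt p (a i) (b i) hp hM (hab i).1)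
    (Fin n) (univ S φ) d e (homog_univ S φ d e hS) (1 / 4) (by norm_num) (by norm_num) (by
      intro p hp hpD _ V hV
      have h101 : 101 ≤ Fintype.card (ZMod p) := by
        rw [ZMod.card]
        by_contra hlt
        push Not at hlt
        exact hpD (Nat.dvd_factorial hp.out.pos hlt.le)
      have h1 := dens h101 hn d e he S hS V (fun i => (hV i).1)
      rw [ZMod.card, ← hN] at h1
      refine le_trans (le_of_eq ?_) h1
      have h2 : {c : Fin N → ZMod p | ∃ x : Fin (n + 1) → ZMod p, x ≠ 0 ∧ ∀ j, val (univ S φ j) V c x = 0} =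
          (fun c : ((j : Fin n) × S j) → ZMod p => fun k => c (φ.symm k)) ''
          {c | ∃ x : Fin (n + 1) → ZMod p, x ≠ 0 ∧ ∀ j, form S c V x j = 0} := by
        ext c
        constructor
        · rintro ⟨x, hx, h0⟩
          refine ⟨fun m => c (φ m), ⟨x, hx, fun j => ?_⟩, ?_⟩
          · rw [← val_univ S φ V c x j]
            exact h0 j
          · funext k
            simp
        · rintro ⟨c', ⟨x, hx, h0⟩, rfl⟩
          refine ⟨x, hx, fun j => ?_⟩
          rw [val_univ]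
          simpa using h0 j
      rw [h2, Set.ncard_image_of_injective]
      intro c c' h
      funext m
      have := congrFun h (φ m)
      simpa using this) ε hε
  refine ⟨C, fun H hH => ?_⟩
  have h3 := hC H hH
  rw [← hN]
  refine le_trans (le_of_eq ?_) h3
  have h2 : {c : Fin N → ℤ | (∀ k, |c k| ≤ H) ∧ ∃ (V : Fin r → Fin 3 → ℚ) (x : Fin (n + 1) → ℚ),
        (∀ i, FD.OnE (a i) (b i) (V i)) ∧ x ≠ 0 ∧ ∀ j, val (univ S φ j) V (fun k => (c k : ℚ)) x = 0} =
      (fun c : ((j : Fin n) × S j) → ℤ => fun k => c (φ.symm k)) ''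
      {c : ((j : Fin n) × S j) → ℤ | (∀ m, |c m| ≤ H) ∧
        ∃ (V : Fin r → Fin 3 → ℚ) (x : Fin (n + 1) → ℚ), (∀ i, FD.OnE (a i) (b i) (V i)) ∧ x ≠ 0 ∧
          ∀ j, form S (fun m => (c m : ℚ)) V x j = 0} := by
    ext c
    constructor
    · rintro ⟨hc, V, x, hV, hx, h0⟩
      refine ⟨fun m => c (φ m), ⟨fun m => hc _, V, x, hV, hx, fun j => ?_⟩, ?_⟩
      · rw [← val_univ S φ V (fun k => (c k : ℚ)) x j]
        exact h0 j
      · funext k
        simp
    · rintro ⟨c', ⟨hc, V, x, hV, hx, h0⟩, rfl⟩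
      refine ⟨fun k => hc _, V, x, hV, hx, fun j => ?_⟩
      rw [val_univ]
      simpa using h0 j
  rw [h2, Set.ncard_image_of_injective]
  intro c c' h
  funext m
  have := congrFun h (φ m)
  simpa using this

end Pool.Agent.Helper3K9.CI
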