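import Pool.Agent.Helper3K9.CI.Covers

set_option autoImplicit false

/-! Almost all covers of degree `D` of `A` have no rational points, with a power saving. -/

namespace Pool.Agent.Helper3K9.CI

open MvPolynomial Pool.Agent.W659

section

variable {r N D : ℕ} (k : Fin r → ℕ) (g : Fin D → MvPolynomial (Fin r × Fin 3) ℤ)
  (S : Fin D → Finset (Fin r → Fin 3 → ℕ)) (φ : ((i : Fin D) × S i) ≃ Fin N)

/-- the weights of the two homogeneous coordinates of `ℙ(O ⊕ L)` -/
def kap : Fin 2 → Fin r → ℕ := ![fun _ => 0, k]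

/-- the universal monic polynomial of degree `D`, homogenized -/
noncomputable def ucov : Poly r N 1 :=
  X (Sum.inr (Sum.inr 1)) ^ D + ∑ i : Fin D,
    (rename Sum.inl (g i) + ∑ m : S i, X (Sum.inr (Sum.inl (φ ⟨i, m⟩))) *
      ∏ l, ∏ j, X (Sum.inl (l, j)) ^ m.1 l j) *
    (X (Sum.inr (Sum.inr 1)) ^ (D - 1 - (i : ℕ)) * X (Sum.inr (Sum.inr 0)) ^ ((i : ℕ) + 1))

theorem val_ucov {A : Type} [CommRing A] (V : Fin r → Fin 3 → A) (c : Fin N → A) (x : Fin 2 → A) :
    val (ucov g S φ) V c x = x 1 ^ D + ∑ i : Fin D,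
      (aeval (fun ij : Fin r × Fin 3 => V ij.1 ij.2) (g i) + ∑ m : S i, c (φ ⟨i, m⟩) * vmono m.1 V) *
        (x 1 ^ (D - 1 - (i : ℕ)) * x 0 ^ ((i : ℕ) + 1)) := by
  unfold val ucov vmono
  simp only [map_add, map_sum, map_mul, map_pow, map_prod, aeval_X, Sum.elim_inr, Sum.elim_inl,
    aeval_rename]
  rfl

theorem homog_ucov (hg : ∀ i, ∀ m ∈ (g i).support, ∀ l, ∑ j, m (l, j) = ((i : ℕ) + 1) * k l)
    (hS : ∀ i, ∀ m ∈ S i, ∀ l, ∑ j, m l j = ((i : ℕ) + 1) * k l) :
    (ucov g S φ).IsWeightedHomogeneous (wt N (kap k)) (fun l => D * k l, D) := by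
  unfold ucov
  have hx1 : (X (Sum.inr (Sum.inr 1)) : Poly r N 1).IsWeightedHomogeneous (wt N (kap k)) (k, 1) :=
    isWeightedHomogeneous_X _ _ _
  have hx0 : (X (Sum.inr (Sum.inr 0)) : Poly r N 1).IsWeightedHomogeneous (wt N (kap k)) (0, 1) :=
    isWeightedHomogeneous_X _ _ _
  refine IsWeightedHomogeneous.add ?_ (IsWeightedHomogeneous.sum _ _ _ fun i _ => ?_)
  · have h := hx1.pow D
    convert h using 1
    ext l
    · simp
    · simp
  · have h1 : (rename Sum.inl (g i) + ∑ m : S i, X (Sum.inr (Sum.inl (φ ⟨i, m⟩))) *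
        ∏ l, ∏ j, X (Sum.inl (l, j)) ^ m.1 l j : Poly r N 1).IsWeightedHomogeneous (wt N (kap k))
        (fun l => ((i : ℕ) + 1) * k l, 0) := by
      refine IsWeightedHomogeneous.add ?_ (IsWeightedHomogeneous.sum _ _ _ fun m _ => ?_)
      · intro e he
        obtain ⟨e', he', he'2⟩ := coeff_rename_ne_zero _ _ _ he
        rw [← he', Finsupp.weight_apply, Finsupp.sum_mapDomain_index (by simp) (by
          intro a b c
          rw [add_smul])]
        rw [Finsupp.sum_fintype _ _ (by simp)]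
        have h2 := hg i e' (mem_support_iff.2 he'2)
        ext l
        · simp only [wt, Sum.elim_inl, Prod.fst_sum, Prod.smul_fst, Finset.sum_apply, Pi.smul_apply]
          rw [Fintype.sum_prod_type, Finset.sum_eq_single l]
          · simp only [Pi.single_eq_same, smul_eq_mul, mul_one]
            exact h2 l
          · intro l' _ hl'
            apply Finset.sum_eq_zero
            intro j _
            rw [Pi.single_eq_of_ne (Ne.symm hl'), smul_zero]
          · simp
        · simp only [wt, Sum.elim_inl, Prod.snd_sum, Prod.smul_snd, smul_zero, Finset.sum_const_zero]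
      · have h2 : (X (Sum.inr (Sum.inl (φ ⟨i, m⟩))) : Poly r N 1).IsWeightedHomogeneous (wt N (kap k)) 0 :=
          isWeightedHomogeneous_X _ _ _
        have h3 : (∏ l, ∏ j, X (Sum.inl (l, j)) ^ m.1 l j : Poly r N 1).IsWeightedHomogeneous
            (wt N (kap k)) (∑ l, ∑ j, m.1 l j • ((Pi.single l 1, 0) : (Fin r → ℕ) × ℕ)) := by
          refine IsWeightedHomogeneous.prod _ _ _ fun l _ => IsWeightedHomogeneous.prod _ _ _ fun j _ => ?_
          exact (isWeightedHomogeneous_X _ _ _).pow _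
        have h4 := h2.mul h3
        convert h4 using 1
        rw [zero_add]
        ext l
        · simp only [Prod.fst_sum, Prod.smul_fst, Finset.sum_apply, Pi.smul_apply]
          rw [Finset.sum_eq_single l]
          · simp only [Pi.single_eq_same, smul_eq_mul, mul_one]
            exact (hS i m.1 m.2 l).symm
          · intro l' _ hl'
            apply Finset.sum_eq_zero
            intro j _
            rw [Pi.single_eq_of_ne (Ne.symm hl'), smul_zero]
          · simp
        · simp only [Prod.snd_sum, Prod.smul_snd, smul_zero, Finset.sum_const_zero]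
    have h5 := h1.mul ((hx1.pow (D - 1 - (i : ℕ))).mul (hx0.pow ((i : ℕ) + 1)))
    convert h5 using 1
    have hi := i.2
    ext l
    · simp only [Prod.fst_add, Pi.add_apply, Prod.smul_fst, Pi.smul_apply, smul_eq_mul, smul_zero, add_zero]
      rw [← add_mul]
      congr 1
      omega
    · simp only [Prod.snd_add, Prod.smul_snd, smul_eq_mul, mul_one]
      omega

end

theorem covers (r D : ℕ) (hD : 2 ≤ D) (a b : Fin r → ℤ)
    (hab : ∀ i, a i * b i = 0 ∧ (a i ≠ 0 ∨ b i ≠ 0)) (k : Fin r → ℕ)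
    (g : Fin D → MvPolynomial (Fin r × Fin 3) ℤ)
    (hg : ∀ i, ∀ m ∈ (g i).support, ∀ l, ∑ j, m (l, j) = ((i : ℕ) + 1) * k l)
    (S : Fin D → Finset (Fin r → Fin 3 → ℕ))
    (hS : ∀ i, ∀ m ∈ S i, ∀ l, ∑ j, m l j = ((i : ℕ) + 1) * k l)
    (hlast : Last D k S) (ε : ℝ) (hε : 0 < ε) :
    ∃ C : ℝ, ∀ H : ℕ, 1 ≤ H →
      (({c : ((i : Fin D) × S i) → ℤ | (∀ m, |c m| ≤ H) ∧
        ∃ (V : Fin r → Fin 3 → ℚ) (w : ℚ), (∀ i, FD.OnE (a i) (b i) (V i)) ∧
          cov g S (fun m => (c m : ℚ)) V w = 0}.ncard : ℕ) : ℝ) ≤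
        C * (H : ℝ) ^ ((Fintype.card ((i : Fin D) × S i) : ℝ) - 1 / 5 + ε) := by
  classical
  obtain ⟨N, hN⟩ : ∃ N, N = Fintype.card ((i : Fin D) × S i) := ⟨_, rfl⟩
  obtain ⟨φ⟩ : Nonempty (((i : Fin D) × S i) ≃ Fin N) := by
    rw [hN]
    exact ⟨Fintype.equivFin _⟩
  have hN1 : 1 ≤ N := by
    rw [hN]
    apply Fintype.card_pos_iff.2
    exact ⟨⟨⟨D - 1, by omega⟩, ⟨_, hlast ⟨D - 1, by omega⟩ (by simp only; omega) (fun _ => 0)⟩⟩⟩
  have hη : (0 : ℝ) < 1 / (2 * D) := by
    have : (2 : ℝ) ≤ D := by exact_mod_cast hD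
    positivity
  have hη1 : (1 : ℝ) / (2 * D) ≤ 1 := by
    have : (2 : ℝ) ≤ D := by exact_mod_cast hD
    rw [div_le_one (by positivity)]
    linarith
  -- solutions in `ℙ(O ⊕ L)` and in `L`
  have hpt : ∀ (K : Type) [Field K] (V : Fin r → Fin 3 → K) (c : Fin N → K),
      (∃ x : Fin 2 → K, x ≠ 0 ∧ val (ucov g S φ) V c x = 0) → ∃ w, cov g S (fun m => c (φ m)) V w = 0 := by
    rintro K _ V c ⟨x, hx, h0⟩
    rw [val_ucov] at h0
    have hx0 : x 0 ≠ 0 := by
      intro h
      apply hx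
      have h1 : x 1 ^ D = 0 := by
        rw [h] at h0
        simpa using h0
      have h2 : x 1 = 0 := by
        by_contra h3
        exact pow_ne_zero _ h3 h1
      funext t
      fin_cases t
      · exact h
      · exact h2
    refine ⟨x 1 / x 0, ?_⟩
    have h3 : x 0 ^ D * cov g S (fun m => c (φ m)) V (x 1 / x 0) = 0 := by
      refine Eq.trans ?_ h0
      unfold cov
      rw [mul_add, div_pow, mul_div_cancel₀ _ (pow_ne_zero _ hx0), Finset.mul_sum]
      congr 1
      refine Finset.sum_congr rfl fun i _ => ?_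
      have hi := i.2
      have e1 : x 0 ^ D = x 0 ^ (D - 1 - (i : ℕ)) * x 0 ^ ((i : ℕ) + 1) := by
        rw [← pow_add]
        congr 1
        omega
      rw [e1, div_pow]
      have := pow_ne_zero (D - 1 - (i : ℕ)) hx0
      field_simp
    rcases mul_eq_zero.1 h3 with h4 | h4
    · exact absurd h4 (pow_ne_zero _ hx0)
    · exact h4
  have hpt' : ∀ (K : Type) [Field K] (V : Fin r → Fin 3 → K) (c : Fin N → K) (w : K),
      cov g S (fun m => c (φ m)) V w = 0 → val (ucov g S φ) V c ![1, w] = 0 := by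
    intro K _ V c w h
    rw [val_ucov]
    simpa [cov] using h
  obtain ⟨C, hC⟩ := general2 r N 1 hN1 a b 12 1 (by norm_num) one_pos (by
      intro i h
      obtain ⟨h1, h2⟩ := hab i
      rcases mul_eq_zero.1 h1 with h3 | h3
      · rw [h3] at h h2
        have h4 : (b i) ^ 2 = 0 := by linarith
        rcases h2 with h2 | h2
        · exact h2 rfl
        · exact h2 (pow_eq_zero_iff two_ne_zero |>.1 h4)
      · rw [h3] at h h2
        have h4 : (a i) ^ 3 = 0 := by linarith
        rcases h2 with h2 | h2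
        · exact h2 (pow_eq_zero_iff three_ne_zero |>.1 h4)
        · exact h2 rfl)
    (fun i p hp _ hM => Pool.Agent.H35R6.DCCNT.cnt p (a i) (b i) hp hM (hab i).1)
    (kap k) Unit (fun _ => ucov g S φ) (fun _ => (fun l => D * k l, D)) (fun _ => homog_ucov k g S φ hg hS)
    (1 / (2 * D)) hη hη1 (by
      intro p hp _ _ V hV
      have h1 := cov_dens hD k g S hlast V (fun i => (hV i).1)
      rw [ZMod.card, ← hN] at h1
      refine le_trans ?_ h1
      have h2 : {c : Fin N → ZMod p | ∃ x : Fin 2 → ZMod p, x ≠ 0 ∧ ∀ j : Unit, val (ucov g S φ) V c x = 0} ⊆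
          (fun c : ((i : Fin D) × S i) → ZMod p => fun k => c (φ.symm k)) ''
          {c | ∃ w, cov g S c V w = 0} := by
        rintro c ⟨x, hx, h0⟩
        refine ⟨fun m => c (φ m), hpt _ V c ⟨x, hx, h0 ()⟩, ?_⟩
        funext k
        simp
      have h3 := Set.ncard_le_ncard h2 (Set.toFinite _)
      have h4 := Set.ncard_image_of_injective (f := fun c : ((i : Fin D) × S i) → ZMod p => fun k => c (φ.symm k))
        {c | ∃ w, cov g S c V w = 0} (by
          intro c c' h
          funext m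
          have := congrFun h (φ m)
          simpa using this)
      rw [h4] at h3
      exact_mod_cast h3) ε hε
  refine ⟨C, fun H hH => ?_⟩
  have h3 := hC H hH
  rw [← hN]
  refine le_trans ?_ h3
  have hfin : {c : Fin N → ℤ | (∀ k, |c k| ≤ H) ∧ ∃ (V : Fin r → Fin 3 → ℚ) (x : Fin 2 → ℚ),
        (∀ i, FD.OnE (a i) (b i) (V i)) ∧ x ≠ 0 ∧ ∀ j : Unit, val (ucov g S φ) V (fun k => (c k : ℚ)) x = 0}.Finite := by
    have : {c : Fin N → ℤ | ∀ j, c j ∈ Set.Icc (-(H : ℤ)) (H : ℤ)}.Finite :=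
      Set.Finite.pi' fun _ => Set.finite_Icc _ _
    apply Set.Finite.subset this
    rintro c ⟨hc, -⟩ j
    exact ⟨(abs_le.1 (hc j)).1, (abs_le.1 (hc j)).2⟩
  have h2 : (fun c : ((i : Fin D) × S i) → ℤ => fun k => c (φ.symm k)) ''
      {c : ((i : Fin D) × S i) → ℤ | (∀ m, |c m| ≤ H) ∧
        ∃ (V : Fin r → Fin 3 → ℚ) (w : ℚ), (∀ i, FD.OnE (a i) (b i) (V i)) ∧
          cov g S (fun m => (c m : ℚ)) V w = 0} ⊆
      {c : Fin N → ℤ | (∀ k, |c k| ≤ H) ∧ ∃ (V : Fin r → Fin 3 → ℚ) (x : Fin 2 → ℚ),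
        (∀ i, FD.OnE (a i) (b i) (V i)) ∧ x ≠ 0 ∧ ∀ j : Unit, val (ucov g S φ) V (fun k => (c k : ℚ)) x = 0} := by
    rintro c ⟨c', ⟨hc, V, w, hV, h0⟩, rfl⟩
    refine ⟨fun k => hc _, V, ![1, w], hV, ?_, fun _ => ?_⟩
    · intro h
      have := congrFun h 0
      simp at this
    · apply hpt'
      simpa using h0
  have h4 := Set.ncard_le_ncard h2 hfin
  rw [Set.ncard_image_of_injective] at h4
  · exact_mod_cast h4
  · intro c c' h
    funext m
    have := congrFun h (φ m)
    simpa using this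

end Pool.Agent.Helper3K9.CI
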